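import Pool.Agent.N802.DH.Ex

/-!
# Assembly
-/

open Complex Filter
open scoped BigOperators Topology

set_option autoImplicit false

namespace Pool.Agent.N802.DH

lemma bb_le (D X n : ℕ) : |bb D X n| ≤ (n.divisors.card : ℝ) := by
  unfold bb
  refine (Finset.abs_sum_le_sum_abs _ _).trans ?_
  have h1 : ∀ d ∈ n.divisors.filter (fun d => d ≤ D ∧ n / d ≤ X),
      |((ArithmeticFunction.moebius d : ℤ) : ℝ)| ≤ 1 := by
    intro d _
    have := ArithmeticFunction.abs_moebius_le_one (n := d)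
    exact_mod_cast this
  refine (Finset.sum_le_card_nsmul _ _ _ h1).trans ?_
  rw [nsmul_eq_mul, mul_one]
  exact_mod_cast Finset.card_filter_le _ _

/-- the coefficients of a block -/
noncomputable def pj (D X M n : ℕ) : ℂ :=
  if n ∈ Finset.Ioc M (2 * M) ∧ n ≤ X * D then (bb D X n : ℂ) else 0

lemma dyadic (f : ℕ → ℂ) (D : ℕ) : ∀ J : ℕ, ∑ n ∈ Finset.Ioc D (D * 2 ^ J), f n =
    ∑ j ∈ Finset.range J, ∑ n ∈ Finset.Ioc (D * 2 ^ j) (2 * (D * 2 ^ j)), f n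
  | 0 => by simp
  | J + 1 => by
    rw [Finset.sum_range_succ, ← dyadic f D J]
    have e : 2 * (D * 2 ^ J) = D * 2 ^ (J + 1) := by ring
    rw [e]
    symm
    apply Finset.sum_Ioc_consecutive
    · exact Nat.le_mul_of_pos_right _ (by positivity)
    · exact Nat.mul_le_mul_left _ (Nat.pow_le_pow_right (by norm_num) (Nat.le_succ J))

lemma split (D X J : ℕ) (hJ : X ≤ 2 ^ J) (s : ℂ) :
    ∑ n ∈ Finset.Ioc D (X * D), (bb D X n : ℂ) * (n : ℂ) ^ (-s) =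
      ∑ j ∈ Finset.range J, ∑ n ∈ Finset.Icc 1 (2 * (D * 2 ^ j)),
        pj D X (D * 2 ^ j) n * (n : ℂ) ^ (-s) := by
  have h1 : ∑ n ∈ Finset.Ioc D (X * D), (bb D X n : ℂ) * (n : ℂ) ^ (-s) =
      ∑ n ∈ Finset.Ioc D (D * 2 ^ J), (if n ≤ X * D then (bb D X n : ℂ) * (n : ℂ) ^ (-s)
        else 0) := by
    rw [← Finset.sum_filter]
    refine Finset.sum_congr ?_ fun _ _ => rfl
    ext n
    rw [Finset.mem_filter, Finset.mem_Ioc, Finset.mem_Ioc]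
    have : X * D ≤ D * 2 ^ J := by
      rw [mul_comm D]
      exact Nat.mul_le_mul_right _ hJ
    constructor
    · rintro ⟨a, b⟩
      exact ⟨⟨a, b.trans this⟩, b⟩
    · rintro ⟨⟨a, _⟩, c⟩
      exact ⟨a, c⟩
  rw [h1, dyadic]
  refine Finset.sum_congr rfl fun j _ => ?_
  have hsub : Finset.Ioc (D * 2 ^ j) (2 * (D * 2 ^ j)) ⊆ Finset.Icc 1 (2 * (D * 2 ^ j)) := by
    intro n hn
    rw [Finset.mem_Ioc] at hn
    rw [Finset.mem_Icc]
    omega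
  rw [← Finset.sum_subset hsub]
  · refine Finset.sum_congr rfl fun n hn => ?_
    unfold pj
    by_cases hc : n ≤ X * D
    · rw [if_pos hc, if_pos ⟨hn, hc⟩]
    · rw [if_neg hc, if_neg (fun h => hc h.2), zero_mul]
  · intro n _ hn
    unfold pj
    rw [if_neg (fun h => hn h.1), zero_mul]

/-- **the density theorem in long weights**, for a family of zeros -/
def S_dhw : Prop := ∀ ε : ℝ, 0 < ε → ∃ C T0 : ℝ, 0 < C ∧ 10 ≤ T0 ∧ ∀ T : ℝ, T0 ≤ T →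
  ∀ (Z : Finset ℂ) (m : ℂ → ℝ) (A σ : ℝ), Pts Z m A T → 1 / 2 ≤ σ → σ ≤ 1 →
  (∀ s ∈ Z, riemannZeta s = 0 ∧ σ ≤ s.re ∧ s.re ≤ 1) → ∀ N : ℕ, 1 ≤ N → (N : ℝ) ≤ T →
  ∀ r : ℕ → ℂ, Sup N r →
  ∑ s ∈ Z, m s * ‖∑ n ∈ Finset.Icc 1 N, r n * (n : ℂ) ^ (-(I * s.im))‖ ^ 2 ≤
    C * A * T ^ ε * GG N T σ * ∑ n ∈ Finset.Icc 1 N, ‖r n‖ ^ 2

lemma params {ε1 : ℝ} (h0 : 0 < ε1) (K0 : ℕ) : ∃ T0 : ℝ, 10 ≤ T0 ∧ ∀ T : ℝ, T0 ≤ T →
    2 ≤ T ^ ε1 ∧ 4 ≤ Real.log T ∧ (8 * Real.log T) ^ (2 * K0 + 5) ≤ T ^ ε1 := by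
  have e1 : ∀ᶠ T : ℝ in atTop, 2 ≤ T ^ ε1 := (tendsto_rpow_atTop h0).eventually_ge_atTop 2
  have e2 : ∀ᶠ T : ℝ in atTop, 4 ≤ Real.log T := Real.tendsto_log_atTop.eventually_ge_atTop 4
  have e3 : ∀ᶠ T : ℝ in atTop, (8 * Real.log T) ^ (2 * K0 + 5) ≤ T ^ ε1 := by
    have h := (isLittleO_log_rpow_rpow_atTop ((2 * K0 + 5 : ℕ) : ℝ) h0).bound
      (show (0 : ℝ) < (8 ^ (2 * K0 + 5))⁻¹ by positivity)
    filter_upwards [h, e2, eventually_ge_atTop 1] with T hT hT2 hT1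
    rw [Real.norm_of_nonneg (by positivity), Real.norm_of_nonneg (by positivity),
      Real.rpow_natCast] at hT
    rw [mul_pow]
    have h8 : (0 : ℝ) < 8 ^ (2 * K0 + 5) := by positivity
    have := mul_le_mul_of_nonneg_left hT h8.le
    rwa [← mul_assoc, mul_inv_cancel₀ h8.ne', one_mul] at this
  obtain ⟨T0, hT0⟩ := eventually_atTop.1 (e1.and (e2.and e3))
  exact ⟨max 10 T0, le_max_left _ _, fun T hT => hT0 T ((le_max_right _ _).trans hT)⟩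

theorem asm (hdet : S_det) (hlsz : S_lsz) : S_dhw := by
  intro ε hε
  obtain ⟨ε1, h0, h1, h2⟩ : ∃ ε1 : ℝ, 0 < ε1 ∧ ε1 < 1 / 2 ∧ 3 * ε1 ≤ ε :=
    ⟨min (ε / 3) (1 / 4), lt_min (by positivity) (by norm_num),
      lt_of_le_of_lt (min_le_right _ _) (by norm_num), by
        have := min_le_left (ε / 3) (1 / 4)
        linarith⟩
  set K0 := ⌈1 / ε1⌉₊ + 1 with hK0
  set δ : ℝ := ε1 / (3 * (3 * K0 + 1)) with hδ
  have hδ0 : 0 < δ := by positivity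
  obtain ⟨Cd, hCd, hdiv⟩ := divisor_bound δ hδ0
  obtain ⟨T1, hT1, hdet⟩ := hdet ε1 h0 h1
  obtain ⟨T2, hT2, hpar⟩ := params h0 K0
  obtain ⟨C, hC, hblk⟩ := blk hlsz
  set Cd' := max 1 Cd with hCd'
  have hCd1 : 1 ≤ Cd' := le_max_left _ _
  refine ⟨C * (Cd' ^ (3 * K0 + 1) * 16 ^ (δ * (3 * K0 + 1)) * 2 ^ (K0 + 5)), max T1 T2,
    by positivity, hT1.trans (le_max_left _ _), ?_⟩
  intro T hT Z m A σ hZ hσ hσ1 hzero N hN hNT r hr
  have hTa : T1 ≤ T := (le_max_left _ _).trans hT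
  have hTb : T2 ≤ T := (le_max_right _ _).trans hT
  have hT10 : 10 ≤ T := hT1.trans hTa
  have hT0 : 0 < T := by linarith
  obtain ⟨p1, p2, p3⟩ := hpar T hTb
  set D := ⌊T ^ ε1⌋₊ with hD
  set X0 := ⌊4 * T⌋₊ with hX0
  have hD1 : 1 ≤ D := by
    rw [hD]
    exact Nat.le_floor (by push_cast; linarith)
  have hX01 : 1 ≤ X0 := by
    rw [hX0]
    exact Nat.le_floor (by push_cast; linarith)
  set J := Nat.log 2 X0 + 1 with hJ
  have hJX : X0 ≤ 2 ^ J := (Nat.lt_pow_succ_log_self (by norm_num) X0).le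
  have hJ1 : 1 ≤ J := by omega
  set L := Real.log T with hL
  have hL0 : 0 < L := by linarith
  have hJL : (J : ℝ) ≤ 4 * L := by
    have k1 : (2 : ℝ) ^ (Nat.log 2 X0) ≤ 4 * T := by
      have k2 : ((2 ^ (Nat.log 2 X0) : ℕ) : ℝ) ≤ X0 := by
        exact_mod_cast Nat.pow_log_le_self 2 (by omega)
      push_cast at k2
      exact k2.trans (Nat.floor_le (by positivity))
    have k3 := Real.log_le_log (by positivity) k1
    rw [Real.log_pow, Real.log_mul (by norm_num) hT0.ne', ← hL] at k3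
    have k4 : Real.log 4 = 2 * Real.log 2 := by
      rw [show (4 : ℝ) = 2 ^ 2 by norm_num, Real.log_pow]
      norm_num
    have k5 := Real.log_two_gt_d9
    have k6 := Real.log_two_lt_d9
    rw [k4] at k3
    have k7 : (Nat.log 2 X0 : ℝ) ≤ 2 + 2 * L := by
      by_contra hcon
      push Not at hcon
      nlinarith
    rw [hJ]
    push_cast
    linarith
  set Dm : ℝ := Cd' * (16 * T ^ 3) ^ δ with hDm
  have h16 : 1 ≤ (16 * T ^ 3 : ℝ) := by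
    have : (1 : ℝ) ≤ T ^ 3 := one_le_pow₀ (by linarith)
    linarith
  have hDm1 : 1 ≤ Dm := by
    rw [hDm]
    exact one_le_mul_of_one_le_of_one_le hCd1 (Real.one_le_rpow h16 hδ0.le)
  have hdm : ∀ n : ℕ, 1 ≤ n → (n : ℝ) ≤ 16 * T ^ 3 → (n.divisors.card : ℝ) ≤ Dm := by
    intro n hn hn2
    refine (hdiv n (by omega)).trans ?_
    rw [hDm]
    apply mul_le_mul (le_max_right _ _) (Real.rpow_le_rpow (Nat.cast_nonneg _) hn2 hδ0.le)
      (by positivity) (by positivity)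
  have hDmp : Dm ^ (3 * K0 + 1) ≤ Cd' ^ (3 * K0 + 1) * 16 ^ (δ * (3 * K0 + 1)) * T ^ ε1 := by
    rw [hDm, mul_pow, Real.mul_rpow (by norm_num) (by positivity), mul_pow, ← mul_assoc]
    apply le_of_eq
    congr 1
    · congr 1
      rw [← Real.rpow_natCast, ← Real.rpow_mul (by norm_num)]
      congr 1
      push_cast
      ring
    · rw [← Real.rpow_natCast, ← Real.rpow_natCast, ← Real.rpow_mul (by positivity),
        ← Real.rpow_mul (by positivity)]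
      congr 1
      rw [hδ]
      push_cast
      field_simp
  have hG0 : 0 ≤ GG N T σ := by
    unfold GG
    positivity
  set Sr := ∑ n ∈ Finset.Icc 1 N, ‖r n‖ ^ 2 with hSr
  have hSr0 : 0 ≤ Sr := Finset.sum_nonneg fun n _ => by positivity
  have hA : 0 < A := by linarith [hZ.A1]
  -- the blocks
  have hblocks : ∀ j ∈ Finset.range J, ∃ k : ℕ, 1 ≤ k ∧ k ≤ K0 ∧
      ∑ s ∈ Z, m s * ‖∑ n ∈ Finset.Icc 1 N, r n * (n : ℂ) ^ (-(I * s.im))‖ ^ 2 *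
      (‖∑ n ∈ Finset.Icc 1 (2 * (D * 2 ^ j)), pj D X0 (D * 2 ^ j) n * (n : ℂ) ^ (-s)‖ ^ 2) ^ k ≤
      C * A * (5 * L) ^ 4 * Dm ^ (3 * K0 + 1) * (2 ^ (K0 + 5) * T ^ ε1 * GG N T σ) * Sr := by
    intro j hj
    rw [Finset.mem_range] at hj
    have hM1 : D ≤ D * 2 ^ j := Nat.le_mul_of_pos_right _ (by positivity)
    have hM2 : D * 2 ^ j ≤ D * X0 := by
      apply Nat.mul_le_mul_left
      refine (Nat.pow_le_pow_right (by norm_num) (by omega : j ≤ Nat.log 2 X0)).trans ?_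
      exact Nat.pow_log_le_self 2 (by omega)
    obtain ⟨k, k1, k2, k3, k4⟩ := choose_k h0 h1 hT10 p1 hN hNT hD hX0 hM1 hM2 hσ hσ1
    refine ⟨k, k1, k2, ?_⟩
    have hMpos : 1 ≤ D * 2 ^ j := hD1.trans hM1
    have hX1 : 1 ≤ N * (2 * (D * 2 ^ j)) ^ k :=
      Nat.mul_pos hN (Nat.pow_pos (by omega))
    have hb := hblk Z m A T σ hZ hσ (fun s hs => (hzero s hs).2) k N (D * 2 ^ j) hN hMpos Dm Dm
      (pj D X0 (D * 2 ^ j)) r hDm1 (fun n hn => by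
        rw [Finset.mem_Icc] at hn
        refine hdm n hn.1 (le_trans ?_ k3)
        exact_mod_cast hn.2) (fun n hn => by
        unfold pj
        rw [if_neg (fun h => hn h.1)]) (fun n => by
        unfold pj
        split_ifs with hc
        · rw [Complex.norm_real, Real.norm_eq_abs]
          refine (bb_le D X0 n).trans (hdm n ?_ ?_)
          · have := (Finset.mem_Ioc.1 hc.1).1
            omega
          · have e1 : (n : ℝ) ≤ X0 * D := by exact_mod_cast hc.2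
            have e2 : (X0 : ℝ) ≤ 4 * T := Nat.floor_le (by positivity)
            have e3 : (D : ℝ) ≤ T := by
              refine (Nat.floor_le (by positivity)).trans ?_
              calc T ^ ε1 ≤ T ^ (1 : ℝ) :=
                    Real.rpow_le_rpow_of_exponent_le (by linarith) (by linarith)
                _ = T := Real.rpow_one T
            have e4 : (n : ℝ) ≤ 4 * T * T :=
              e1.trans (mul_le_mul e2 e3 (Nat.cast_nonneg _) (by positivity))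
            nlinarith [pow_pos hT0 2]
        · rw [norm_zero]
          linarith) hr
    set X := N * (2 * (D * 2 ^ j)) ^ k with hX
    set Lx := 1 + Real.log (X : ℕ) with hLx
    have hLx1 : 1 ≤ Lx := by
      have := Real.log_natCast_nonneg X
      linarith
    have hX0r : (0 : ℝ) < X := by exact_mod_cast hX1
    have hLx2 : Lx ≤ 5 * L := by
      have e1 : Real.log X ≤ Real.log (16 * T ^ 3) := Real.log_le_log hX0r k3
      have e2 : Real.log (16 * T ^ 3) = 4 * Real.log 2 + 3 * L := by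
        rw [Real.log_mul (by norm_num) (by positivity), Real.log_pow,
          show (16 : ℝ) = 2 ^ 4 by norm_num, Real.log_pow]
        push_cast
        ring
      have := Real.log_two_lt_d9
      rw [hLx]
      linarith
    refine hb.trans ?_
    have e5 : (Dm ^ 2 * ((D * 2 ^ j : ℕ) : ℝ) ^ (1 - 2 * σ)) ^ k =
        Dm ^ (2 * k) * (((D * 2 ^ j : ℕ) : ℝ) ^ (1 - 2 * σ)) ^ k := by
      rw [mul_pow, ← pow_mul]
    rw [e5]
    set Mk := (((D * 2 ^ j : ℕ) : ℝ) ^ (1 - 2 * σ)) ^ k with hMk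
    have hMk0 : 0 ≤ Mk := by positivity
    have k4' : (T + (X : ℝ)) * Mk ≤ 2 ^ (K0 + 5) * T ^ ε1 * GG N T σ := by
      refine k4.trans ?_
      have : (2 : ℝ) ^ (⌈1 / ε1⌉₊ + 5) ≤ 2 ^ (K0 + 5) :=
        pow_le_pow_right₀ (by norm_num) (by omega)
      gcongr
    have e6 : T + (X : ℝ) * Lx ≤ (T + X) * Lx := by nlinarith
    have e7 : Dm ^ (k + 1) * Dm ^ (2 * k) ≤ Dm ^ (3 * K0 + 1) := by
      rw [← pow_add]
      exact pow_le_pow_right₀ hDm1 (by omega)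
    have e8 : Lx ^ 4 ≤ (5 * L) ^ 4 := pow_le_pow_left₀ (by linarith) hLx2 4
    calc C * A * (T + (X : ℝ) * Lx) * Lx ^ 3 * Dm ^ (k + 1) * (Dm ^ (2 * k) * Mk) * Sr ≤
        C * A * ((T + X) * Lx) * Lx ^ 3 * Dm ^ (k + 1) * (Dm ^ (2 * k) * Mk) * Sr := by gcongr
      _ = C * A * Lx ^ 4 * (Dm ^ (k + 1) * Dm ^ (2 * k)) * ((T + X) * Mk) * Sr := by ring
      _ ≤ C * A * (5 * L) ^ 4 * Dm ^ (3 * K0 + 1) * (2 ^ (K0 + 5) * T ^ ε1 * GG N T σ) * Sr := by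
          gcongr
  choose! kk hkk1 hkk2 hkk3 using hblocks
  -- the detection
  have hdetect : ∀ s ∈ Z, 1 ≤ ∑ j ∈ Finset.range J, ((2 * J : ℝ) ^ 2 *
      ‖∑ n ∈ Finset.Icc 1 (2 * (D * 2 ^ j)), pj D X0 (D * 2 ^ j) n * (n : ℂ) ^ (-s)‖ ^ 2) ^
        kk j := by
    intro s hs
    obtain ⟨z1, z2, z3⟩ := hzero s hs
    obtain ⟨z4, z5⟩ := hZ.im s hs
    have hd := hdet T hTa s z1 (by linarith) z3 z4 z5
    rw [split D X0 J hJX s] at hd
    have hd2 := hd.trans (norm_sum_le _ _)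
    have hJ0 : (0 : ℝ) < J := by exact_mod_cast hJ1
    obtain ⟨j, hj, hj2⟩ : ∃ j ∈ Finset.range J, 1 / (2 * J : ℝ) ≤
        ‖∑ n ∈ Finset.Icc 1 (2 * (D * 2 ^ j)), pj D X0 (D * 2 ^ j) n * (n : ℂ) ^ (-s)‖ := by
      by_contra hcon
      push Not at hcon
      have h3 : ∑ j ∈ Finset.range J,
          ‖∑ n ∈ Finset.Icc 1 (2 * (D * 2 ^ j)), pj D X0 (D * 2 ^ j) n * (n : ℂ) ^ (-s)‖ <
          ∑ j ∈ Finset.range J, 1 / (2 * J : ℝ) :=
        Finset.sum_lt_sum_of_nonempty ⟨0, Finset.mem_range.2 (by omega)⟩ hcon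
      rw [Finset.sum_const, Finset.card_range, nsmul_eq_mul] at h3
      have h4 : (J : ℝ) * (1 / (2 * J)) = 1 / 2 := by field_simp
      rw [h4] at h3
      linarith
    have h5 : 1 ≤ (2 * J : ℝ) ^ 2 *
        ‖∑ n ∈ Finset.Icc 1 (2 * (D * 2 ^ j)), pj D X0 (D * 2 ^ j) n * (n : ℂ) ^ (-s)‖ ^ 2 := by
      rw [← mul_pow]
      apply one_le_pow₀
      rw [div_le_iff₀ (by positivity)] at hj2
      linarith
    refine (one_le_pow₀ h5 (n := kk j)).trans ?_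
    exact Finset.single_le_sum (f := fun j => ((2 * J : ℝ) ^ 2 *
      ‖∑ n ∈ Finset.Icc 1 (2 * (D * 2 ^ j)), pj D X0 (D * 2 ^ j) n * (n : ℂ) ^ (-s)‖ ^ 2) ^
        kk j) (fun i _ => by positivity) hj
  have hJr : (1 : ℝ) ≤ J := by exact_mod_cast hJ1
  have h3 : ∀ s ∈ Z, m s * ‖∑ n ∈ Finset.Icc 1 N, r n * (n : ℂ) ^ (-(I * s.im))‖ ^ 2 ≤
      ∑ j ∈ Finset.range J, (2 * J : ℝ) ^ (2 * K0) *
        (m s * ‖∑ n ∈ Finset.Icc 1 N, r n * (n : ℂ) ^ (-(I * s.im))‖ ^ 2 *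
        (‖∑ n ∈ Finset.Icc 1 (2 * (D * 2 ^ j)), pj D X0 (D * 2 ^ j) n * (n : ℂ) ^ (-s)‖ ^ 2) ^
          kk j) := by
    intro s hs
    have h4 : 0 ≤ m s * ‖∑ n ∈ Finset.Icc 1 N, r n * (n : ℂ) ^ (-(I * s.im))‖ ^ 2 :=
      mul_nonneg (hZ.m0 s hs) (sq_nonneg _)
    refine (le_mul_of_one_le_right h4 (hdetect s hs)).trans ?_
    rw [Finset.mul_sum]
    refine Finset.sum_le_sum fun j hj => ?_
    rw [mul_pow, ← pow_mul]
    have h5 : (2 * J : ℝ) ^ (2 * kk j) ≤ (2 * J : ℝ) ^ (2 * K0) :=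
      pow_le_pow_right₀ (by linarith) (by have := hkk2 j hj; omega)
    calc m s * ‖∑ n ∈ Finset.Icc 1 N, r n * (n : ℂ) ^ (-(I * s.im))‖ ^ 2 *
        ((2 * J : ℝ) ^ (2 * kk j) * (‖∑ n ∈ Finset.Icc 1 (2 * (D * 2 ^ j)),
          pj D X0 (D * 2 ^ j) n * (n : ℂ) ^ (-s)‖ ^ 2) ^ kk j) =
        (2 * J : ℝ) ^ (2 * kk j) * (m s *
          ‖∑ n ∈ Finset.Icc 1 N, r n * (n : ℂ) ^ (-(I * s.im))‖ ^ 2 *
          (‖∑ n ∈ Finset.Icc 1 (2 * (D * 2 ^ j)),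
          pj D X0 (D * 2 ^ j) n * (n : ℂ) ^ (-s)‖ ^ 2) ^ kk j) := by ring
      _ ≤ _ := mul_le_mul_of_nonneg_right h5 (mul_nonneg h4 (by positivity))
  refine (Finset.sum_le_sum h3).trans ?_
  rw [Finset.sum_comm]
  simp_rw [← Finset.mul_sum]
  set V := C * A * (5 * L) ^ 4 * Dm ^ (3 * K0 + 1) * (2 ^ (K0 + 5) * T ^ ε1 * GG N T σ) * Sr
    with hV
  have hV0 : 0 ≤ V := by positivity
  have h4 : (2 * J : ℝ) ^ (2 * K0) * ∑ j ∈ Finset.range J,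
      ∑ s ∈ Z, m s * ‖∑ n ∈ Finset.Icc 1 N, r n * (n : ℂ) ^ (-(I * s.im))‖ ^ 2 *
        (‖∑ n ∈ Finset.Icc 1 (2 * (D * 2 ^ j)), pj D X0 (D * 2 ^ j) n * (n : ℂ) ^ (-s)‖ ^ 2) ^
          kk j ≤ (2 * J : ℝ) ^ (2 * K0) * ∑ j ∈ Finset.range J, V :=
    mul_le_mul_of_nonneg_left (Finset.sum_le_sum fun j hj => hkk3 j hj) (by positivity)
  refine h4.trans ?_
  rw [Finset.sum_const, Finset.card_range, nsmul_eq_mul]
  have h5 : (J : ℝ) * ((2 * J : ℝ) ^ (2 * K0) * (5 * L) ^ 4) ≤ T ^ ε1 := by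
    have k1 : (J : ℝ) ≤ 8 * L := by linarith
    have k2 : (2 * J : ℝ) ^ (2 * K0) ≤ (8 * L) ^ (2 * K0) :=
      pow_le_pow_left₀ (by positivity) (by linarith) _
    have k3 : (5 * L) ^ 4 ≤ (8 * L) ^ 4 := pow_le_pow_left₀ (by positivity) (by linarith) _
    calc (J : ℝ) * ((2 * J : ℝ) ^ (2 * K0) * (5 * L) ^ 4) ≤
        (8 * L) * ((8 * L) ^ (2 * K0) * (8 * L) ^ 4) := by gcongr
      _ = (8 * L) ^ (2 * K0 + 5) := by ring
      _ ≤ T ^ ε1 := p3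
  calc (2 * J : ℝ) ^ (2 * K0) * ((J : ℝ) * V) =
      ((J : ℝ) * ((2 * J : ℝ) ^ (2 * K0) * (5 * L) ^ 4)) * (C * A * Dm ^ (3 * K0 + 1) *
        (2 ^ (K0 + 5) * T ^ ε1 * GG N T σ) * Sr) := by
        rw [hV]
        ring
    _ ≤ T ^ ε1 * (C * A * (Cd' ^ (3 * K0 + 1) * 16 ^ (δ * (3 * K0 + 1)) * T ^ ε1) *
        (2 ^ (K0 + 5) * T ^ ε1 * GG N T σ) * Sr) := by gcongr
    _ = C * (Cd' ^ (3 * K0 + 1) * 16 ^ (δ * (3 * K0 + 1)) * 2 ^ (K0 + 5)) * A *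
        (T ^ ε1 * T ^ ε1 * T ^ ε1) * GG N T σ * Sr := by ring
    _ ≤ C * (Cd' ^ (3 * K0 + 1) * 16 ^ (δ * (3 * K0 + 1)) * 2 ^ (K0 + 5)) * A *
        T ^ ε * GG N T σ * Sr := by
        have h6 : T ^ ε1 * T ^ ε1 * T ^ ε1 ≤ T ^ ε := by
          rw [← Real.rpow_add hT0, ← Real.rpow_add hT0]
          exact Real.rpow_le_rpow_of_exponent_le (by linarith) (by linarith)
        gcongr

end Pool.Agent.N802.DH
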