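import Pool.Agent.N802.DH.Cv

/-!
# One block
-/

open Complex MeasureTheory
open scoped BigOperators

set_option autoImplicit false

namespace Pool.Agent.N802.DH

lemma int_sq {a b : ℝ} (hab : a ≤ b) (hba : b - a ≤ 1) {φ : ℝ → ℝ} (hφ : Continuous φ) :
    (∫ u in a..b, φ u) ^ 2 ≤ ∫ u in a..b, φ u ^ 2 := by
  set c := ∫ u in a..b, φ u with hc
  have h1 : 0 ≤ ∫ u in a..b, (φ u - c) ^ 2 :=
    intervalIntegral.integral_nonneg hab fun u _ => sq_nonneg _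
  have h2 : ∫ u in a..b, (φ u - c) ^ 2 = (∫ u in a..b, φ u ^ 2) - 2 * c * c + c ^ 2 * (b - a) := by
    have e : (fun u => (φ u - c) ^ 2) = fun u => (φ u ^ 2 - 2 * c * φ u) + c ^ 2 := by
      funext u
      ring
    have i1 : IntervalIntegrable (fun u => φ u ^ 2) volume a b := (hφ.pow 2).intervalIntegrable _ _
    have i2 : IntervalIntegrable (fun u => 2 * c * φ u) volume a b :=
      (hφ.const_mul (2 * c)).intervalIntegrable _ _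
    rw [e, intervalIntegral.integral_add (i1.sub i2) intervalIntegrable_const,
      intervalIntegral.integral_sub i1 i2, intervalIntegral.integral_const_mul,
      intervalIntegral.integral_const, smul_eq_mul]
    ring
  have h3 : c ^ 2 * (b - a) ≤ c ^ 2 * 1 := mul_le_mul_of_nonneg_left hba (sq_nonneg c)
  nlinarith

/-- the values to the right from those on a line -/
lemma line {Z : ℕ} (q : ℕ → ℂ) {σ : ℝ} (hσ0 : 0 ≤ σ) {s : ℂ} (h1 : σ ≤ s.re) (h2 : s.re ≤ 1) :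
    ‖∑ n ∈ Finset.Icc 1 Z, q n * (n : ℂ) ^ (-s)‖ ^ 2 ≤
      2 * ‖∑ n ∈ Finset.Icc 1 Z, q n * (n : ℂ) ^ (-(σ : ℂ)) * (n : ℂ) ^ (-(I * s.im))‖ ^ 2 +
      2 * ∫ u in σ..1, ‖∑ n ∈ Finset.Icc 1 Z, q n * (-(Real.log n : ℂ)) * (n : ℂ) ^ (-(u : ℂ)) *
        (n : ℂ) ^ (-(I * s.im))‖ ^ 2 := by
  set f : ℝ → ℂ := fun u => ∑ n ∈ Finset.Icc 1 Z, q n * (n : ℂ) ^ (-(u : ℂ)) *
    (n : ℂ) ^ (-(I * s.im)) with hf
  set f' : ℝ → ℂ := fun u => ∑ n ∈ Finset.Icc 1 Z, q n * (-(Real.log n : ℂ)) *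
    (n : ℂ) ^ (-(u : ℂ)) * (n : ℂ) ^ (-(I * s.im)) with hf'
  have hn0 : ∀ n ∈ Finset.Icc 1 Z, (n : ℂ) ≠ 0 := fun n hn => by
    have := (Finset.mem_Icc.1 hn).1
    exact_mod_cast (by omega : n ≠ 0)
  have hd : ∀ u : ℝ, HasDerivAt f (f' u) u := by
    intro u
    apply HasDerivAt.fun_sum
    intro n hn
    have e1 : HasDerivAt (fun u : ℝ => (n : ℂ) ^ (-(u : ℂ)))
        (-(Real.log n : ℂ) * (n : ℂ) ^ (-(u : ℂ))) u := by
      have h3 : HasDerivAt (fun z : ℂ => (n : ℂ) ^ (-z))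
          ((n : ℂ) ^ (-(u : ℂ)) * Complex.log n * -1) (u : ℂ) := by
        have := (hasDerivAt_id (u : ℂ)).neg.const_cpow (c := (n : ℂ)) (Or.inl (hn0 n hn))
        simpa using this
      have h4 := h3.comp_ofReal
      refine h4.congr_deriv ?_
      rw [← Complex.natCast_log]
      ring
    have e2 := ((e1.const_mul (q n)).mul_const ((n : ℂ) ^ (-(I * s.im))))
    refine e2.congr_deriv ?_
    ring
  have hc' : Continuous f' := by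
    apply continuous_finsetSum
    intro n hn
    have : Continuous fun u : ℝ => (n : ℂ) ^ (-(u : ℂ)) :=
      Continuous.const_cpow (by fun_prop) (Or.inl (hn0 n hn))
    exact (continuous_const.mul this).mul continuous_const
  have hs : ∑ n ∈ Finset.Icc 1 Z, q n * (n : ℂ) ^ (-s) = f s.re := by
    simp only [hf]
    refine Finset.sum_congr rfl fun n hn => ?_
    rw [mul_assoc, ← Complex.cpow_add _ _ (hn0 n hn)]
    congr 2
    conv_lhs => rw [← Complex.re_add_im s]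
    ring
  have hint : f s.re - f σ = ∫ u in σ..s.re, f' u :=
    (intervalIntegral.integral_eq_sub_of_hasDerivAt (fun u _ => hd u)
      (hc'.intervalIntegrable _ _)).symm
  have h3 : ‖f s.re - f σ‖ ^ 2 ≤ ∫ u in σ..1, ‖f' u‖ ^ 2 := by
    rw [hint]
    have k1 : ‖∫ u in σ..s.re, f' u‖ ≤ ∫ u in σ..s.re, ‖f' u‖ :=
      intervalIntegral.norm_integral_le_integral_norm h1
    have k2 : ∫ u in σ..s.re, ‖f' u‖ ≤ ∫ u in σ..1, ‖f' u‖ :=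
      intervalIntegral.integral_mono_interval le_rfl h1 h2
        (Filter.Eventually.of_forall fun u => norm_nonneg _) (hc'.norm.intervalIntegrable _ _)
    have k3 := pow_le_pow_left₀ (norm_nonneg _) (k1.trans k2) 2
    exact k3.trans (int_sq (h1.trans h2) (by linarith) hc'.norm)
  have h4 : ‖f s.re‖ ^ 2 ≤ 2 * ‖f σ‖ ^ 2 + 2 * ‖f s.re - f σ‖ ^ 2 := by
    have k1 : ‖f s.re‖ ≤ ‖f σ‖ + ‖f s.re - f σ‖ := by
      have : f s.re = f σ + (f s.re - f σ) := by ring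
      nth_rw 1 [this]
      exact norm_add_le _ _
    have k2 := pow_le_pow_left₀ (norm_nonneg _) k1 2
    nlinarith [sq_nonneg (‖f σ‖ - ‖f s.re - f σ‖)]
  rw [hs]
  linarith

/-- the conditions on the points -/
structure Pts (Z : Finset ℂ) (m : ℂ → ℝ) (A T : ℝ) : Prop where
  m0 : ∀ s ∈ Z, 0 ≤ m s
  A1 : 1 ≤ A
  T1 : 1 ≤ T
  im : ∀ s ∈ Z, T ≤ s.im ∧ s.im ≤ 2 * T
  loc : ∀ y : ℝ, (∑ s ∈ Z, if |s.im - y| ≤ 1 / 2 then m s else 0) ≤ A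

lemma cpow_mulc (c : ℂ) : ∀ a b : ℕ, 1 ≤ a → 1 ≤ b →
    (((a * b : ℕ) : ℂ)) ^ c = (a : ℂ) ^ c * (b : ℂ) ^ c := by
  intro a b _ _
  push_cast
  exact Complex.natCast_mul_natCast_cpow a b c

/-- a product of two polynomials at the points -/
lemma two (C : ℝ) (hC : 0 < C) (hlsz : ∀ (Z : Finset ℂ) (m : ℂ → ℝ) (A T : ℝ), (∀ s ∈ Z, 0 ≤ m s) →
    1 ≤ A → 1 ≤ T → (∀ s ∈ Z, T ≤ s.im ∧ s.im ≤ 2 * T) →
    (∀ y : ℝ, (∑ s ∈ Z, if |s.im - y| ≤ 1 / 2 then m s else 0) ≤ A) →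
    ∀ (X : ℕ) (a : ℕ → ℂ), 1 ≤ X →
    ∑ s ∈ Z, m s * ‖∑ n ∈ Finset.Icc 1 X, a n * (n : ℂ) ^ (-(I * s.im))‖ ^ 2 ≤
    C * A * (T + X * (1 + Real.log X)) * (1 + Real.log X) * ∑ n ∈ Finset.Icc 1 X, ‖a n‖ ^ 2)
    {Z : Finset ℂ} {m : ℂ → ℝ} {A T : ℝ} (hZ : Pts Z m A T) {N Y : ℕ} (hN : 1 ≤ N) (hY : 1 ≤ Y)
    {r g : ℕ → ℂ} (hr : Sup N r) (hg : Sup Y g) {Dm : ℝ}
    (hD : ∀ n : ℕ, n ∈ Finset.Icc 1 (N * Y) → (n.divisors.card : ℝ) ≤ Dm) :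
    ∑ s ∈ Z, m s * ‖∑ n ∈ Finset.Icc 1 N, r n * (n : ℂ) ^ (-(I * s.im))‖ ^ 2 *
      ‖∑ n ∈ Finset.Icc 1 Y, g n * (n : ℂ) ^ (-(I * s.im))‖ ^ 2 ≤
    C * A * (T + (N * Y : ℕ) * (1 + Real.log (N * Y : ℕ))) * (1 + Real.log (N * Y : ℕ)) *
      (Dm * (∑ n ∈ Finset.Icc 1 N, ‖r n‖ ^ 2) * (∑ n ∈ Finset.Icc 1 Y, ‖g n‖ ^ 2)) := by
  have hNY : 1 ≤ N * Y := Nat.mul_pos hN hY
  have hA : 0 < A := by linarith [hZ.A1]
  have hT : 0 < T := by linarith [hZ.T1]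
  have hl : 0 ≤ Real.log (N * Y : ℕ) := Real.log_natCast_nonneg _
  have h1 := hlsz Z m A T hZ.m0 hZ.A1 hZ.T1 hZ.im hZ.loc (N * Y) (cv r g) hNY
  have h2 := cv_l2 hr hg hD
  have e : ∀ s : ℂ, m s * ‖∑ n ∈ Finset.Icc 1 N, r n * (n : ℂ) ^ (-(I * s.im))‖ ^ 2 *
      ‖∑ n ∈ Finset.Icc 1 Y, g n * (n : ℂ) ^ (-(I * s.im))‖ ^ 2 =
      m s * ‖∑ n ∈ Finset.Icc 1 (N * Y), cv r g n * (n : ℂ) ^ (-(I * s.im))‖ ^ 2 := by
    intro s
    rw [← cv_prod hr hg (Φ := fun n : ℕ => (n : ℂ) ^ (-(I * s.im))) (cpow_mulc _), norm_mul]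
    ring
  simp only [e]
  refine h1.trans (mul_le_mul_of_nonneg_left h2 ?_)
  positivity

lemma block_l2 {M : ℕ} (hM : 1 ≤ M) {p : ℕ → ℂ} (hp : ∀ n, n ∉ Finset.Ioc M (2 * M) → p n = 0)
    {B : ℝ} (hB : ∀ n, ‖p n‖ ≤ B) {u : ℝ} (hu : 0 ≤ u) :
    ∑ n ∈ Finset.Icc 1 (2 * M), ‖p n * (n : ℂ) ^ (-(u : ℂ))‖ ^ 2 ≤
      B ^ 2 * (M : ℝ) ^ (1 - 2 * u) := by
  have hM0 : (0 : ℝ) < M := by exact_mod_cast hM
  have hsub : Finset.Ioc M (2 * M) ⊆ Finset.Icc 1 (2 * M) := by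
    intro n hn
    rw [Finset.mem_Ioc] at hn
    rw [Finset.mem_Icc]
    omega
  rw [← Finset.sum_subset hsub (fun n _ hn => by rw [hp n hn]; simp)]
  have h1 : ∀ n ∈ Finset.Ioc M (2 * M), ‖p n * (n : ℂ) ^ (-(u : ℂ))‖ ^ 2 ≤
      B ^ 2 * (M : ℝ) ^ (-(2 * u)) := by
    intro n hn
    rw [Finset.mem_Ioc] at hn
    have hn0 : 0 < n := by omega
    have hn0' : (0 : ℝ) < n := by exact_mod_cast hn0
    rw [norm_mul, mul_pow, Complex.norm_natCast_cpow_of_pos hn0]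
    have k1 : ‖p n‖ ^ 2 ≤ B ^ 2 := pow_le_pow_left₀ (norm_nonneg _) (hB n) 2
    have k2 : ((n : ℝ) ^ (-(u : ℂ)).re) ^ 2 ≤ (M : ℝ) ^ (-(2 * u)) := by
      have e1 : (-(u : ℂ)).re = -u := by simp
      rw [e1, ← Real.rpow_natCast, ← Real.rpow_mul hn0'.le]
      have e2 : -u * ((2 : ℕ) : ℝ) = -(2 * u) := by push_cast; ring
      rw [e2]
      apply Real.rpow_le_rpow_of_nonpos hM0 _ (by linarith)
      exact_mod_cast hn.1.le
    exact mul_le_mul k1 k2 (by positivity) (sq_nonneg _)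
  refine (Finset.sum_le_card_nsmul _ _ _ h1).trans (le_of_eq ?_)
  have hc : (Finset.Ioc M (2 * M)).card = M := by
    rw [Nat.card_Ioc]
    omega
  rw [hc, nsmul_eq_mul]
  have e3 : (M : ℝ) ^ (1 - 2 * u) = M * (M : ℝ) ^ (-(2 * u)) := by
    rw [show 1 - 2 * u = 1 + (-(2 * u)) by ring, Real.rpow_add hM0, Real.rpow_one]
  rw [e3]
  ring

/-- **one block** -/
theorem blk (h : S_lsz) : ∃ C : ℝ, 0 < C ∧ ∀ (Z : Finset ℂ) (m : ℂ → ℝ) (A T σ : ℝ),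
    Pts Z m A T → 1 / 2 ≤ σ → (∀ s ∈ Z, σ ≤ s.re ∧ s.re ≤ 1) → ∀ (k N M : ℕ), 1 ≤ N → 1 ≤ M →
    ∀ (Dm B : ℝ) (p r : ℕ → ℂ), 1 ≤ Dm →
    (∀ n : ℕ, n ∈ Finset.Icc 1 (N * (2 * M) ^ k) → (n.divisors.card : ℝ) ≤ Dm) →
    (∀ n, n ∉ Finset.Ioc M (2 * M) → p n = 0) → (∀ n, ‖p n‖ ≤ B) → Sup N r →
    ∑ s ∈ Z, m s * ‖∑ n ∈ Finset.Icc 1 N, r n * (n : ℂ) ^ (-(I * s.im))‖ ^ 2 *
      (‖∑ n ∈ Finset.Icc 1 (2 * M), p n * (n : ℂ) ^ (-s)‖ ^ 2) ^ k ≤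
    C * A * (T + (N * (2 * M) ^ k : ℕ) * (1 + Real.log (N * (2 * M) ^ k : ℕ))) *
      (1 + Real.log (N * (2 * M) ^ k : ℕ)) ^ 3 * Dm ^ (k + 1) *
      (B ^ 2 * (M : ℝ) ^ (1 - 2 * σ)) ^ k * ∑ n ∈ Finset.Icc 1 N, ‖r n‖ ^ 2 := by
  obtain ⟨C, hC, hlsz⟩ := h
  refine ⟨4 * C, by positivity, ?_⟩
  intro Z m A T σ hZ hσ hs k N M hN hM Dm B p r hDm hD hp hB hr
  have hM0 : (0 : ℝ) < M := by exact_mod_cast hM
  have hM1 : (1 : ℝ) ≤ M := by exact_mod_cast hM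
  set Y := (2 * M) ^ k with hY
  have hY1 : 1 ≤ Y := Nat.one_le_pow _ _ (by omega)
  have hNY : 1 ≤ N * Y := Nat.mul_pos hN hY1
  set q := pw p k with hq
  have hpS : Sup (2 * M) p := by
    intro n hn
    apply hp
    intro hn'
    apply hn
    rw [Finset.mem_Ioc] at hn'
    rw [Finset.mem_Icc]
    omega
  have hqS : Sup Y q := pw_sup hpS k
  set Lx := 1 + Real.log (N * Y : ℕ) with hLx
  have hLx1 : 1 ≤ Lx := by
    have := Real.log_natCast_nonneg (N * Y)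
    linarith
  set Sr := ∑ n ∈ Finset.Icc 1 N, ‖r n‖ ^ 2 with hSr
  have hSr0 : 0 ≤ Sr := Finset.sum_nonneg fun n _ => by positivity
  have hA : 0 < A := by linarith [hZ.A1]
  have hT : 0 < T := by linarith [hZ.T1]
  set E := (Dm * (B ^ 2 * (M : ℝ) ^ (1 - 2 * σ))) ^ k with hE
  have hE0 : 0 ≤ E := by positivity
  -- the coefficients
  have hq2 : ∀ u : ℝ, σ ≤ u → ∑ n ∈ Finset.Icc 1 Y, ‖q n * (n : ℂ) ^ (-(u : ℂ))‖ ^ 2 ≤ E := by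
    intro u hu
    have e1 : ∀ n : ℕ, q n * (n : ℂ) ^ (-(u : ℂ)) =
        pw (fun n => p n * (n : ℂ) ^ (-(u : ℂ))) k n := fun n =>
      (pw_twist (Ψ := fun n : ℕ => (n : ℂ) ^ (-(u : ℂ))) (by simp) (cpow_mulc _) k n).symm
    simp only [e1]
    have hpS' : Sup (2 * M) (fun n => p n * (n : ℂ) ^ (-(u : ℂ))) := fun n hn => by
      simp only [hpS n hn, zero_mul]
    refine (pw_l2 (by omega) hpS' (by linarith : 0 ≤ Dm) k (fun n hn => hD n (by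
      rw [Finset.mem_Icc] at hn ⊢
      exact ⟨hn.1, hn.2.trans (Nat.le_mul_of_pos_left _ hN)⟩))).trans ?_
    rw [hE]
    have h1 := block_l2 hM hp hB (u := u) (by linarith)
    have h2 : (M : ℝ) ^ (1 - 2 * u) ≤ (M : ℝ) ^ (1 - 2 * σ) :=
      Real.rpow_le_rpow_of_exponent_le hM1 (by linarith)
    apply pow_le_pow_left₀ (by positivity)
    apply mul_le_mul_of_nonneg_left _ (by linarith)
    exact h1.trans (mul_le_mul_of_nonneg_left h2 (sq_nonneg _))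
  -- both kinds of sums
  have hkey : ∀ g : ℕ → ℂ, Sup Y g → (∑ n ∈ Finset.Icc 1 Y, ‖g n‖ ^ 2) ≤ Lx ^ 2 * E →
      ∑ s ∈ Z, m s * ‖∑ n ∈ Finset.Icc 1 N, r n * (n : ℂ) ^ (-(I * s.im))‖ ^ 2 *
      ‖∑ n ∈ Finset.Icc 1 Y, g n * (n : ℂ) ^ (-(I * s.im))‖ ^ 2 ≤
      C * A * (T + (N * Y : ℕ) * Lx) * Lx ^ 3 * (Dm * Sr * E) := by
    intro g hg hg2
    refine (two C hC hlsz hZ hN hY1 hr hg hD).trans ?_
    have h1 : Dm * Sr * ∑ n ∈ Finset.Icc 1 Y, ‖g n‖ ^ 2 ≤ Dm * Sr * (Lx ^ 2 * E) :=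
      mul_le_mul_of_nonneg_left hg2 (by positivity)
    have h2 : 0 ≤ C * A * (T + (N * Y : ℕ) * Lx) * Lx := by positivity
    calc C * A * (T + (N * Y : ℕ) * Lx) * Lx * (Dm * Sr * ∑ n ∈ Finset.Icc 1 Y, ‖g n‖ ^ 2) ≤
        C * A * (T + (N * Y : ℕ) * Lx) * Lx * (Dm * Sr * (Lx ^ 2 * E)) :=
          mul_le_mul_of_nonneg_left h1 h2
      _ = _ := by ring
  set V := C * A * (T + (N * Y : ℕ) * Lx) * Lx ^ 3 * (Dm * Sr * E) with hV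
  have hV0 : 0 ≤ V := by positivity
  -- the first
  have h1 := hkey (fun n => q n * (n : ℂ) ^ (-(σ : ℂ))) (fun n hn => by
    simp only [hqS n hn, zero_mul]) ((hq2 σ le_rfl).trans (by
      have : 1 ≤ Lx ^ 2 := one_le_pow₀ hLx1
      exact le_mul_of_one_le_left hE0 this))
  have h2 : ∀ u : ℝ, σ ≤ u → ∑ s ∈ Z, m s *
      ‖∑ n ∈ Finset.Icc 1 N, r n * (n : ℂ) ^ (-(I * s.im))‖ ^ 2 *
      ‖∑ n ∈ Finset.Icc 1 Y, q n * (-(Real.log n : ℂ)) * (n : ℂ) ^ (-(u : ℂ)) *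
        (n : ℂ) ^ (-(I * s.im))‖ ^ 2 ≤ V := by
    intro u hu
    refine hkey (fun n => q n * (-(Real.log n : ℂ)) * (n : ℂ) ^ (-(u : ℂ))) (fun n hn => by
      simp only [hqS n hn, zero_mul]) ?_
    have h3 := mul_le_mul_of_nonneg_left (hq2 u hu) (sq_nonneg Lx)
    refine le_trans ?_ h3
    rw [Finset.mul_sum]
    refine Finset.sum_le_sum fun n hn => ?_
    rw [Finset.mem_Icc] at hn
    have e1 : q n * (-(Real.log n : ℂ)) * (n : ℂ) ^ (-(u : ℂ)) =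
        (-(Real.log n : ℂ)) * (q n * (n : ℂ) ^ (-(u : ℂ))) := by ring
    rw [e1, norm_mul, mul_pow]
    apply mul_le_mul_of_nonneg_right _ (sq_nonneg _)
    have hl0 : 0 ≤ Real.log n := Real.log_natCast_nonneg n
    rw [norm_neg, Complex.norm_real, Real.norm_of_nonneg hl0]
    apply pow_le_pow_left₀ hl0
    rw [hLx]
    have h4 : Real.log n ≤ Real.log (N * Y : ℕ) := by
      apply Real.log_le_log
      · exact_mod_cast hn.1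
      · exact_mod_cast hn.2.trans (Nat.le_mul_of_pos_left _ hN)
    linarith
  -- together
  have h3 : ∀ s ∈ Z, m s * ‖∑ n ∈ Finset.Icc 1 N, r n * (n : ℂ) ^ (-(I * s.im))‖ ^ 2 *
      (‖∑ n ∈ Finset.Icc 1 (2 * M), p n * (n : ℂ) ^ (-s)‖ ^ 2) ^ k ≤
      2 * (m s * ‖∑ n ∈ Finset.Icc 1 N, r n * (n : ℂ) ^ (-(I * s.im))‖ ^ 2 *
        ‖∑ n ∈ Finset.Icc 1 Y, q n * (n : ℂ) ^ (-(σ : ℂ)) * (n : ℂ) ^ (-(I * s.im))‖ ^ 2) +
      2 * ∫ u in σ..1, m s * ‖∑ n ∈ Finset.Icc 1 N, r n * (n : ℂ) ^ (-(I * s.im))‖ ^ 2 *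
        ‖∑ n ∈ Finset.Icc 1 Y, q n * (-(Real.log n : ℂ)) * (n : ℂ) ^ (-(u : ℂ)) *
        (n : ℂ) ^ (-(I * s.im))‖ ^ 2 := by
    intro s hsZ
    have h4 := line (Z := Y) q (σ := σ) (by linarith) (hs s hsZ).1 (hs s hsZ).2
    have e1 : (‖∑ n ∈ Finset.Icc 1 (2 * M), p n * (n : ℂ) ^ (-s)‖ ^ 2) ^ k =
        ‖∑ n ∈ Finset.Icc 1 Y, q n * (n : ℂ) ^ (-s)‖ ^ 2 := by
      rw [pw_prod hpS (Φ := fun n : ℕ => (n : ℂ) ^ (-s)) (by simp) (cpow_mulc _) k, norm_pow,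
        ← pow_mul, ← pow_mul, mul_comm 2 k]
    rw [e1]
    have h5 : 0 ≤ m s * ‖∑ n ∈ Finset.Icc 1 N, r n * (n : ℂ) ^ (-(I * s.im))‖ ^ 2 :=
      mul_nonneg (hZ.m0 s hsZ) (sq_nonneg _)
    refine (mul_le_mul_of_nonneg_left h4 h5).trans (le_of_eq ?_)
    rw [intervalIntegral.integral_const_mul]
    ring
  have hcont : ∀ s : ℂ, Continuous fun u : ℝ =>
      m s * ‖∑ n ∈ Finset.Icc 1 N, r n * (n : ℂ) ^ (-(I * s.im))‖ ^ 2 *
        ‖∑ n ∈ Finset.Icc 1 Y, q n * (-(Real.log n : ℂ)) * (n : ℂ) ^ (-(u : ℂ)) *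
        (n : ℂ) ^ (-(I * s.im))‖ ^ 2 := by
    intro s
    apply Continuous.mul continuous_const
    apply Continuous.pow
    apply Continuous.norm
    apply continuous_finsetSum
    intro n hn
    have hn0 : (n : ℂ) ≠ 0 := by
      have := (Finset.mem_Icc.1 hn).1
      exact_mod_cast (by omega : n ≠ 0)
    have : Continuous fun u : ℝ => (n : ℂ) ^ (-(u : ℂ)) :=
      Continuous.const_cpow (by fun_prop) (Or.inl hn0)
    exact (continuous_const.mul this).mul continuous_const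
  refine (Finset.sum_le_sum h3).trans ?_
  rw [Finset.sum_add_distrib, ← Finset.mul_sum, ← Finset.mul_sum,
    ← intervalIntegral.integral_finsetSum fun s _ => (hcont s).intervalIntegrable _ _]
  have h5 : ∫ u in σ..1, ∑ s ∈ Z, m s *
      ‖∑ n ∈ Finset.Icc 1 N, r n * (n : ℂ) ^ (-(I * s.im))‖ ^ 2 *
      ‖∑ n ∈ Finset.Icc 1 Y, q n * (-(Real.log n : ℂ)) * (n : ℂ) ^ (-(u : ℂ)) *
        (n : ℂ) ^ (-(I * s.im))‖ ^ 2 ≤ V := by
    by_cases hσ1 : σ ≤ 1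
    · refine (intervalIntegral.integral_mono_on hσ1
        ((continuous_finsetSum _ fun s _ => hcont s).intervalIntegrable _ _)
        intervalIntegrable_const (fun u hu => h2 u hu.1)).trans ?_
      rw [intervalIntegral.integral_const, smul_eq_mul]
      have : (1 - σ) * V ≤ 1 * V := mul_le_mul_of_nonneg_right (by linarith) hV0
      linarith
    · rcases Finset.eq_empty_or_nonempty Z with hZe | ⟨s, hsZ⟩
      · rw [hZe]
        simpa using hV0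
      · exact absurd ((hs s hsZ).1.trans (hs s hsZ).2) hσ1
  refine (add_le_add (mul_le_mul_of_nonneg_left h1 zero_le_two)
    (mul_le_mul_of_nonneg_left h5 zero_le_two)).trans (le_of_eq ?_)
  rw [hV, hE, mul_pow]
  ring

end Pool.Agent.N802.DH
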