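import Pool.Agent.N802.DH.Stm

/-!
# Dirichlet convolutions of finite sequences
-/

open Complex
open scoped BigOperators

set_option autoImplicit false

namespace Pool.Agent.N802.DH

/-- The divisor bound `d(n) ≤ C n^δ` (from the library, S17662). -/
lemma divisor_bound (δ : ℝ) (hδ : 0 < δ) :
    ∃ C : ℝ, 0 < C ∧ ∀ n : ℕ, n ≠ 0 → ((n.divisors.card : ℕ) : ℝ) ≤ C * (n : ℝ) ^ δ := by
  have hlog : 0 < Real.log 2 := Real.log_pos (by norm_num)
  have hδl : 0 < δ * Real.log 2 := mul_pos hδ hlog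
  set M : ℝ := max 1 (1 / (δ * Real.log 2)) with hM
  have hM1 : 1 ≤ M := le_max_left _ _
  have hM2 : 1 ≤ M * (δ * Real.log 2) := by
    have : 1 / (δ * Real.log 2) ≤ M := le_max_right _ _
    calc (1 : ℝ) = 1 / (δ * Real.log 2) * (δ * Real.log 2) := by
          field_simp
      _ ≤ M * (δ * Real.log 2) := mul_le_mul_of_nonneg_right this hδl.le
  set K : ℕ := ⌈(2 : ℝ) ^ (1 / δ)⌉₊ with hK
  have hKle : (2 : ℝ) ^ (1 / δ) ≤ (K : ℝ) := Nat.le_ceil _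
  refine ⟨M ^ K, by positivity, ?_⟩
  intro n hn
  have hbase : ∀ p ∈ n.primeFactors, (((n.factorization p + 1 : ℕ)) : ℝ) ≤
      (if p < K then M else 1) * (((p : ℝ) ^ (n.factorization p)) ^ δ) := by
    intro p hp
    have hpp : p.Prime := Nat.prime_of_mem_primeFactors hp
    set a := n.factorization p with ha
    have hp2 : (2 : ℝ) ≤ (p : ℝ) := by exact_mod_cast hpp.two_le
    have hp0 : (0 : ℝ) ≤ (p : ℝ) := by positivity
    have hpow : (((p : ℝ) ^ a) ^ δ) = ((p : ℝ) ^ δ) ^ a := by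
      rw [← Real.rpow_natCast (p : ℝ) a, ← Real.rpow_mul hp0, ← Real.rpow_natCast ((p : ℝ) ^ δ) a,
        ← Real.rpow_mul hp0, mul_comm]
    rw [hpow]
    split_ifs with hlt
    · have h1 : (2 : ℝ) ^ δ ≤ (p : ℝ) ^ δ := Real.rpow_le_rpow (by norm_num) hp2 hδ.le
      have h2 : ((2 : ℝ) ^ δ) ^ a ≤ ((p : ℝ) ^ δ) ^ a :=
        pow_le_pow_left₀ (by positivity) h1 a
      have h3 : 1 + (a : ℝ) * (δ * Real.log 2) ≤ ((2 : ℝ) ^ δ) ^ a := by
        have : ((2 : ℝ) ^ δ) ^ a = Real.exp ((a : ℝ) * (δ * Real.log 2)) := by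
          rw [← Real.rpow_natCast, ← Real.rpow_mul (by norm_num), Real.rpow_def_of_pos (by norm_num)]
          congr 1; ring
        rw [this]
        have := Real.add_one_le_exp ((a : ℝ) * (δ * Real.log 2))
        linarith
      have h4 : (((a + 1 : ℕ)) : ℝ) ≤ M * (1 + (a : ℝ) * (δ * Real.log 2)) := by
        push_cast
        have ha0 : (0 : ℝ) ≤ (a : ℝ) := by positivity
        nlinarith [mul_le_mul_of_nonneg_left hM2 ha0]
      calc (((a + 1 : ℕ)) : ℝ) ≤ M * (1 + (a : ℝ) * (δ * Real.log 2)) := h4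
        _ ≤ M * (((p : ℝ) ^ δ) ^ a) :=
          mul_le_mul_of_nonneg_left (h3.trans h2) (by linarith)
    · have hKp : (K : ℝ) ≤ (p : ℝ) := by exact_mod_cast not_lt.mp hlt
      have h1 : (2 : ℝ) ≤ (p : ℝ) ^ δ := by
        have h5 : ((2 : ℝ) ^ (1 / δ)) ^ δ ≤ (p : ℝ) ^ δ :=
          Real.rpow_le_rpow (by positivity) (hKle.trans hKp) hδ.le
        have h6 : ((2 : ℝ) ^ (1 / δ)) ^ δ = 2 := by
          rw [← Real.rpow_mul (by norm_num)]
          rw [one_div, inv_mul_cancel₀ hδ.ne', Real.rpow_one]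
        rwa [h6] at h5
      have h2 : (2 : ℝ) ^ a ≤ ((p : ℝ) ^ δ) ^ a := pow_le_pow_left₀ (by norm_num) h1 a
      have h3 : (((a + 1 : ℕ)) : ℝ) ≤ (2 : ℝ) ^ a := by
        have : a + 1 ≤ 2 ^ a := Nat.lt_two_pow_self
        exact_mod_cast this
      rw [one_mul]
      exact h3.trans h2
  have hn' : (n : ℝ) ^ δ = ∏ p ∈ n.primeFactors, (((p : ℝ) ^ (n.factorization p)) ^ δ) := by
    rw [Real.finsetProd_rpow _ _ (fun i _ => by positivity)]
    congr 1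
    have := Nat.prod_factorization_pow_eq_self hn
    conv_lhs => rw [← this]
    rw [Finsupp.prod]
    push_cast
    rfl
  rw [Nat.card_divisors hn]
  push_cast
  calc (∏ p ∈ n.primeFactors, ((n.factorization p : ℝ) + 1))
      ≤ ∏ p ∈ n.primeFactors, ((if p < K then M else 1) * (((p : ℝ) ^ (n.factorization p)) ^ δ)) := by
        apply Finset.prod_le_prod
        · intro i _; positivity
        · intro i hi
          have := hbase i hi
          push_cast at this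
          exact this
    _ = (∏ p ∈ n.primeFactors, (if p < K then M else 1)) * (n : ℝ) ^ δ := by
        rw [Finset.prod_mul_distrib, hn']
    _ ≤ M ^ K * (n : ℝ) ^ δ := by
        apply mul_le_mul_of_nonneg_right _ (by positivity)
        rw [Finset.prod_ite, Finset.prod_const, Finset.prod_const_one, mul_one]
        apply pow_le_pow_right₀ hM1
        calc (n.primeFactors.filter (fun p => p < K)).card ≤ (Finset.range K).card := by
              apply Finset.card_le_card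
              intro x hx
              simp only [Finset.mem_filter] at hx
              exact Finset.mem_range.mpr hx.2
          _ = K := Finset.card_range K


/-- Dirichlet convolution -/
noncomputable def cv (f g : ℕ → ℂ) (n : ℕ) : ℂ := ∑ p ∈ n.divisorsAntidiagonal, f p.1 * g p.2

lemma fib {R : Type*} [AddCommMonoid R] (X Y : ℕ) (F : ℕ × ℕ → R)
    (h1 : ∀ p, p.1 ∉ Finset.Icc 1 X → F p = 0) (h2 : ∀ p, p.2 ∉ Finset.Icc 1 Y → F p = 0) :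
    ∑ n ∈ Finset.Icc 1 (X * Y), ∑ p ∈ n.divisorsAntidiagonal, F p =
      ∑ p ∈ Finset.Icc 1 X ×ˢ Finset.Icc 1 Y, F p := by
  rw [← Finset.sum_fiberwise_of_maps_to (s := Finset.Icc 1 X ×ˢ Finset.Icc 1 Y)
    (t := Finset.Icc 1 (X * Y)) (g := fun p => p.1 * p.2)]
  · refine Finset.sum_congr rfl fun n hn => ?_
    rw [Finset.mem_Icc] at hn
    symm
    apply Finset.sum_subset
    · intro p hp
      rw [Finset.mem_filter] at hp
      rw [Nat.mem_divisorsAntidiagonal]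
      exact ⟨hp.2, by omega⟩
    · intro p hp hp'
      rw [Nat.mem_divisorsAntidiagonal] at hp
      by_contra hne
      apply hp'
      rw [Finset.mem_filter, Finset.mem_product]
      refine ⟨⟨?_, ?_⟩, hp.1⟩
      · by_contra hc
        exact hne (h1 p hc)
      · by_contra hc
        exact hne (h2 p hc)
  · intro p hp
    rw [Finset.mem_product, Finset.mem_Icc, Finset.mem_Icc] at hp
    rw [Finset.mem_Icc]
    exact ⟨Nat.mul_pos hp.1.1 hp.2.1, Nat.mul_le_mul hp.1.2 hp.2.2⟩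

/-- supported in `[1, X]` -/
def Sup (X : ℕ) (f : ℕ → ℂ) : Prop := ∀ n, n ∉ Finset.Icc 1 X → f n = 0

lemma cv_prod {X Y : ℕ} {f g Φ : ℕ → ℂ} (hf : Sup X f) (hg : Sup Y g)
    (hΦ : ∀ a b : ℕ, 1 ≤ a → 1 ≤ b → Φ (a * b) = Φ a * Φ b) :
    (∑ n ∈ Finset.Icc 1 X, f n * Φ n) * (∑ n ∈ Finset.Icc 1 Y, g n * Φ n) =
      ∑ n ∈ Finset.Icc 1 (X * Y), cv f g n * Φ n := by
  rw [Finset.sum_mul_sum, ← Finset.sum_product']
  have h1 := fib X Y (fun p : ℕ × ℕ => f p.1 * g p.2 * Φ (p.1 * p.2))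
    (fun p hp => by simp only [hf _ hp, zero_mul]) (fun p hp => by
      simp only [hg _ hp, mul_zero, zero_mul])
  have h2 : ∑ p ∈ Finset.Icc 1 X ×ˢ Finset.Icc 1 Y, f p.1 * g p.2 * Φ (p.1 * p.2) =
      ∑ p ∈ Finset.Icc 1 X ×ˢ Finset.Icc 1 Y, f p.1 * Φ p.1 * (g p.2 * Φ p.2) := by
    refine Finset.sum_congr rfl fun p hp => ?_
    rw [Finset.mem_product, Finset.mem_Icc, Finset.mem_Icc] at hp
    rw [hΦ _ _ hp.1.1 hp.2.1]
    ring
  rw [← h2, ← h1]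
  refine Finset.sum_congr rfl fun n _ => ?_
  unfold cv
  rw [Finset.sum_mul]
  refine Finset.sum_congr rfl fun p hp => ?_
  rw [Nat.mem_divisorsAntidiagonal] at hp
  rw [hp.1]

lemma cv_sup {X Y : ℕ} {f g : ℕ → ℂ} (hf : Sup X f) (hg : Sup Y g) : Sup (X * Y) (cv f g) := by
  intro n hn
  unfold cv
  apply Finset.sum_eq_zero
  intro p hp
  rw [Nat.mem_divisorsAntidiagonal] at hp
  by_cases h1 : p.1 ∈ Finset.Icc 1 X
  · by_cases h2 : p.2 ∈ Finset.Icc 1 Y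
    · exfalso
      apply hn
      rw [Finset.mem_Icc] at h1 h2 ⊢
      rw [← hp.1]
      exact ⟨Nat.mul_pos h1.1 h2.1, Nat.mul_le_mul h1.2 h2.2⟩
    · rw [hg _ h2, mul_zero]
  · rw [hf _ h1, zero_mul]

lemma cv_l2 {X Y : ℕ} {f g : ℕ → ℂ} (hf : Sup X f) (hg : Sup Y g) {Dm : ℝ}
    (hD : ∀ n : ℕ, n ∈ Finset.Icc 1 (X * Y) → (n.divisors.card : ℝ) ≤ Dm) :
    ∑ n ∈ Finset.Icc 1 (X * Y), ‖cv f g n‖ ^ 2 ≤
      Dm * (∑ n ∈ Finset.Icc 1 X, ‖f n‖ ^ 2) * (∑ n ∈ Finset.Icc 1 Y, ‖g n‖ ^ 2) := by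
  have h1 : ∀ n ∈ Finset.Icc 1 (X * Y), ‖cv f g n‖ ^ 2 ≤
      Dm * ∑ p ∈ n.divisorsAntidiagonal, ‖f p.1‖ ^ 2 * ‖g p.2‖ ^ 2 := by
    intro n hn
    have k1 : ‖cv f g n‖ ≤ ∑ p ∈ n.divisorsAntidiagonal, ‖f p.1‖ * ‖g p.2‖ := by
      unfold cv
      refine (norm_sum_le _ _).trans (le_of_eq (Finset.sum_congr rfl fun p _ => norm_mul _ _))
    have k2 := pow_le_pow_left₀ (norm_nonneg _) k1 2
    refine k2.trans (sq_sum_le_card_mul_sum_sq.trans ?_)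
    have k3 : (n.divisorsAntidiagonal.card : ℝ) = n.divisors.card := by
      rw [← Nat.map_div_right_divisors, Finset.card_map]
    rw [k3]
    have k4 : ∑ p ∈ n.divisorsAntidiagonal, (‖f p.1‖ * ‖g p.2‖) ^ 2 =
        ∑ p ∈ n.divisorsAntidiagonal, ‖f p.1‖ ^ 2 * ‖g p.2‖ ^ 2 :=
      Finset.sum_congr rfl fun p _ => mul_pow _ _ _
    rw [k4]
    exact mul_le_mul_of_nonneg_right (hD n hn) (Finset.sum_nonneg fun p _ => by positivity)
  refine (Finset.sum_le_sum h1).trans (le_of_eq ?_)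
  rw [← Finset.mul_sum, fib X Y (fun p : ℕ × ℕ => ‖f p.1‖ ^ 2 * ‖g p.2‖ ^ 2)
    (fun p hp => by simp [hf _ hp]) (fun p hp => by simp [hg _ hp]), Finset.sum_product, mul_assoc,
    Finset.sum_mul_sum]

/-- powers -/
noncomputable def pw (p : ℕ → ℂ) : ℕ → ℕ → ℂ
  | 0 => fun n => if n = 1 then 1 else 0
  | k + 1 => cv (pw p k) p

lemma pw_sup {Y : ℕ} {p : ℕ → ℂ} (hp : Sup Y p) : ∀ k : ℕ, Sup (Y ^ k) (pw p k)
  | 0 => by
    intro n hn
    unfold pw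
    rw [if_neg]
    rintro rfl
    apply hn
    simp
  | k + 1 => by
    rw [pow_succ]
    exact cv_sup (pw_sup hp k) hp

lemma pw_prod {Y : ℕ} {p Φ : ℕ → ℂ} (hp : Sup Y p) (h1 : Φ 1 = 1)
    (hΦ : ∀ a b : ℕ, 1 ≤ a → 1 ≤ b → Φ (a * b) = Φ a * Φ b) : ∀ k : ℕ,
    ∑ n ∈ Finset.Icc 1 (Y ^ k), pw p k n * Φ n = (∑ n ∈ Finset.Icc 1 Y, p n * Φ n) ^ k
  | 0 => by simp [pw, h1]
  | k + 1 => by
    rw [pow_succ, pow_succ, ← pw_prod hp h1 hΦ k, cv_prod (pw_sup hp k) hp hΦ]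
    rfl

lemma pw_twist {p Ψ : ℕ → ℂ} (h1 : Ψ 1 = 1)
    (hΨ : ∀ a b : ℕ, 1 ≤ a → 1 ≤ b → Ψ (a * b) = Ψ a * Ψ b) : ∀ (k n : ℕ),
    pw (fun n => p n * Ψ n) k n = pw p k n * Ψ n
  | 0, n => by
    unfold pw
    split_ifs with h
    · rw [h, h1, mul_one]
    · rw [zero_mul]
  | k + 1, n => by
    unfold pw cv
    rw [Finset.sum_mul]
    refine Finset.sum_congr rfl fun q hq => ?_
    rw [Nat.mem_divisorsAntidiagonal] at hq
    have ha : 1 ≤ q.1 := Nat.one_le_iff_ne_zero.2 fun h => hq.2 (by rw [← hq.1, h, zero_mul])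
    have hb : 1 ≤ q.2 := Nat.one_le_iff_ne_zero.2 fun h => hq.2 (by rw [← hq.1, h, mul_zero])
    rw [pw_twist h1 hΨ k q.1, ← hq.1, hΨ _ _ ha hb]
    ring

lemma pw_l2 {Y : ℕ} {p : ℕ → ℂ} (hY : 1 ≤ Y) (hp : Sup Y p) {Dm : ℝ} (hD0 : 0 ≤ Dm) : ∀ k : ℕ,
    (∀ n : ℕ, n ∈ Finset.Icc 1 (Y ^ k) → (n.divisors.card : ℝ) ≤ Dm) →
    ∑ n ∈ Finset.Icc 1 (Y ^ k), ‖pw p k n‖ ^ 2 ≤ (Dm * ∑ n ∈ Finset.Icc 1 Y, ‖p n‖ ^ 2) ^ k
  | 0, _ => by simp [pw]
  | k + 1, h => by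
    have hle : Y ^ k ≤ Y ^ (k + 1) := Nat.pow_le_pow_right hY (Nat.le_succ k)
    have ih := pw_l2 hY hp hD0 k (fun n hn => h n (by
      rw [Finset.mem_Icc] at hn ⊢
      exact ⟨hn.1, hn.2.trans hle⟩))
    have h1 := cv_l2 (pw_sup hp k) hp (Dm := Dm) (fun n hn => h n (by
      rw [pow_succ]
      exact hn))
    have h2 : ∑ n ∈ Finset.Icc 1 (Y ^ (k + 1)), ‖pw p (k + 1) n‖ ^ 2 =
        ∑ n ∈ Finset.Icc 1 (Y ^ k * Y), ‖cv (pw p k) p n‖ ^ 2 := by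
      rw [pow_succ]
      rfl
    rw [h2]
    refine h1.trans ?_
    have hS : 0 ≤ ∑ n ∈ Finset.Icc 1 Y, ‖p n‖ ^ 2 := Finset.sum_nonneg fun n _ => by positivity
    calc Dm * (∑ n ∈ Finset.Icc 1 (Y ^ k), ‖pw p k n‖ ^ 2) * ∑ n ∈ Finset.Icc 1 Y, ‖p n‖ ^ 2 ≤
        Dm * ((Dm * ∑ n ∈ Finset.Icc 1 Y, ‖p n‖ ^ 2) ^ k) * ∑ n ∈ Finset.Icc 1 Y, ‖p n‖ ^ 2 := by
          gcongr
      _ = (Dm * ∑ n ∈ Finset.Icc 1 Y, ‖p n‖ ^ 2) ^ (k + 1) := by ring

end Pool.Agent.N802.DH
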