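import Pool.Agent.N802.DH.Stm

/-!
# DH1b: detection of the zeros (helper2 for helper802)
-/

open Complex
open scoped BigOperators

set_option autoImplicit false

namespace Pool.Agent.N802.DH

/-- the product as a Dirichlet polynomial -/
theorem det_prod (D X : ℕ) (s : ℂ) :
    (∑ d ∈ Finset.Icc 1 D, ((ArithmeticFunction.moebius d : ℤ) : ℂ) * (d : ℂ) ^ (-s)) *
      (∑ n ∈ Finset.Icc 1 X, (n : ℂ) ^ (-s)) =
      ∑ k ∈ Finset.Icc 1 (X * D), (bb D X k : ℂ) * (k : ℂ) ^ (-s) := by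
  rw [Finset.sum_mul_sum, ← Finset.sum_product',
    ← Finset.sum_fiberwise_of_maps_to (s := Finset.Icc 1 D ×ˢ Finset.Icc 1 X)
      (t := Finset.Icc 1 (X * D)) (g := fun p => p.1 * p.2)]
  · refine Finset.sum_congr rfl fun k hk => ?_
    have hk1 : 1 ≤ k := (Finset.mem_Icc.1 hk).1
    unfold bb
    rw [Complex.ofReal_sum, Finset.sum_mul]
    refine Finset.sum_nbij' (fun p => p.1) (fun d => (d, k / d)) ?_ ?_ ?_ ?_ ?_
    · intro p hp
      rw [Finset.mem_filter, Finset.mem_product, Finset.mem_Icc, Finset.mem_Icc] at hp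
      obtain ⟨⟨⟨h1, h2⟩, h3, h4⟩, h5⟩ := hp
      rw [Finset.mem_filter, Nat.mem_divisors]
      have h6 : k / p.1 = p.2 := by
        rw [← h5, Nat.mul_div_cancel_left _ (by omega)]
      refine ⟨⟨⟨p.2, h5.symm⟩, by omega⟩, h2, ?_⟩
      rw [h6]
      exact h4
    · intro d hd
      rw [Finset.mem_filter, Nat.mem_divisors] at hd
      obtain ⟨⟨h1, h2⟩, h3, h4⟩ := hd
      have hd0 : 0 < d := Nat.pos_of_dvd_of_pos h1 hk1
      have h5 : d * (k / d) = k := Nat.mul_div_cancel' h1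
      have h6 : 0 < k / d := Nat.div_pos (Nat.le_of_dvd hk1 h1) hd0
      rw [Finset.mem_filter, Finset.mem_product, Finset.mem_Icc, Finset.mem_Icc]
      exact ⟨⟨⟨hd0, h3⟩, h6, h4⟩, h5⟩
    · intro p hp
      rw [Finset.mem_filter, Finset.mem_product, Finset.mem_Icc, Finset.mem_Icc] at hp
      obtain ⟨⟨⟨h1, h2⟩, h3, h4⟩, h5⟩ := hp
      have h6 : k / p.1 = p.2 := by
        rw [← h5, Nat.mul_div_cancel_left _ (by omega)]
      show (p.1, k / p.1) = p
      rw [h6]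
    · intro d _
      rfl
    · intro p hp
      have h5 : p.1 * p.2 = k := (Finset.mem_filter.1 hp).2
      rw [← h5]
      push_cast
      rw [Complex.natCast_mul_natCast_cpow]
      ring
  · intro p hp
    rw [Finset.mem_product, Finset.mem_Icc, Finset.mem_Icc] at hp
    obtain ⟨⟨h1, h2⟩, h3, h4⟩ := hp
    rw [Finset.mem_Icc]
    constructor
    · exact Nat.mul_pos h1 h3
    · rw [mul_comm X D]
      exact Nat.mul_le_mul h2 h4

theorem det_moebius (k : ℕ) :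
    ∑ d ∈ k.divisors, ((ArithmeticFunction.moebius d : ℤ) : ℝ) = if k = 1 then 1 else 0 := by
  have h1 : ∑ d ∈ k.divisors, ArithmeticFunction.moebius d = if k = 1 then (1 : ℤ) else 0 := by
    rw [← ArithmeticFunction.coe_mul_zeta_apply, ArithmeticFunction.moebius_mul_coe_zeta,
      ArithmeticFunction.one_apply]
  have h2 : ((∑ d ∈ k.divisors, ArithmeticFunction.moebius d : ℤ) : ℝ) =
      ((if k = 1 then (1 : ℤ) else 0 : ℤ) : ℝ) := by rw [h1]
  push_cast at h2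
  rw [h2]

theorem det_bb {D X k : ℕ} (hDX : D ≤ X) (hkD : k ≤ D) : bb D X k = if k = 1 then 1 else 0 := by
  rw [← det_moebius]
  unfold bb
  congr 1
  refine Finset.filter_true_of_mem fun d hd => ?_
  have h1 := Nat.divisor_le hd
  have h2 := Nat.div_le_self k d
  omega

theorem det_split {D X : ℕ} (hD : 1 ≤ D) (hDX : D ≤ X) (s : ℂ) :
    ∑ k ∈ Finset.Icc 1 (X * D), (bb D X k : ℂ) * (k : ℂ) ^ (-s) =
      1 + ∑ k ∈ Finset.Ioc D (X * D), (bb D X k : ℂ) * (k : ℂ) ^ (-s) := by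
  have e : Finset.Icc 1 (X * D) = Finset.Ioc 0 (X * D) := by
    ext n
    rw [Finset.mem_Icc, Finset.mem_Ioc]
    omega
  have h1 : D ≤ X * D := Nat.le_mul_of_pos_left _ (by omega)
  rw [e, ← Finset.sum_Ioc_consecutive _ (Nat.zero_le D) h1]
  congr 1
  rw [Finset.sum_eq_single 1]
  · rw [det_bb hDX hD, if_pos rfl]
    simp
  · intro k hk hk1
    rw [det_bb hDX (Finset.mem_Ioc.1 hk).2, if_neg hk1]
    simp
  · intro h
    exfalso
    apply h
    rw [Finset.mem_Ioc]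
    omega

theorem det_first {D : ℕ} {s : ℂ} (hs : 1 / 2 ≤ s.re) :
    ‖∑ d ∈ Finset.Icc 1 D, ((ArithmeticFunction.moebius d : ℤ) : ℂ) * (d : ℂ) ^ (-s)‖ ≤ D := by
  refine (norm_sum_le _ _).trans ?_
  have h : ∀ d ∈ Finset.Icc 1 D,
      ‖((ArithmeticFunction.moebius d : ℤ) : ℂ) * (d : ℂ) ^ (-s)‖ ≤ 1 := by
    intro d hd
    have hd1 : 1 ≤ d := (Finset.mem_Icc.1 hd).1
    rw [norm_mul, Complex.norm_natCast_cpow_of_pos (by omega), Complex.norm_intCast]
    have h1 : |((ArithmeticFunction.moebius d : ℤ) : ℝ)| ≤ 1 := by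
      exact_mod_cast ArithmeticFunction.abs_moebius_le_one (n := d)
    have h2 : (d : ℝ) ^ (-s).re ≤ 1 := by
      apply Real.rpow_le_one_of_one_le_of_nonpos
      · exact_mod_cast hd1
      · rw [Complex.neg_re]
        linarith
    have h3 : 0 ≤ (d : ℝ) ^ (-s).re := Real.rpow_nonneg (Nat.cast_nonneg _) _
    calc _ ≤ 1 * 1 := mul_le_mul h1 h2 h3 zero_le_one
      _ = 1 := one_mul 1
  refine (Finset.sum_le_sum h).trans ?_
  rw [Finset.sum_const, Nat.card_Icc, nsmul_eq_mul, mul_one]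
  simp

theorem det (hhl : S_hl) : S_det := by
  obtain ⟨C, hC, hhl⟩ := hhl
  intro ε hε hε2
  have hlim : Filter.Tendsto (fun T : ℝ => C * T ^ (-(1 / 2 - ε))) Filter.atTop (nhds (C * 0)) :=
    (tendsto_rpow_neg_atTop (by linarith : 0 < 1 / 2 - ε)).const_mul C
  rw [mul_zero] at hlim
  have hev := hlim.eventually (ge_mem_nhds (by norm_num : (0 : ℝ) < 1 / 2))
  obtain ⟨T1, hT1⟩ := Filter.eventually_atTop.1 hev
  refine ⟨max 10 T1, le_max_left _ _, fun T hT s hζ hs1 hs2 hs3 hs4 => ?_⟩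
  have hT10 : 10 ≤ T := (le_max_left _ _).trans hT
  have hT0 : 0 < T := by linarith
  have hsmall : C * T ^ (-(1 / 2 - ε)) ≤ 1 / 2 := hT1 T ((le_max_right _ _).trans hT)
  set D := ⌊T ^ ε⌋₊ with hDd
  set X := ⌊4 * T⌋₊ with hXd
  have hTε : 1 ≤ T ^ ε := Real.one_le_rpow (by linarith) hε.le
  have hD1 : 1 ≤ D := by
    rw [hDd, Nat.one_le_floor_iff]
    exact hTε
  have hDX : D ≤ X := by
    refine Nat.floor_le_floor ?_
    calc T ^ ε ≤ T ^ (1 : ℝ) := Real.rpow_le_rpow_of_exponent_le (by linarith) (by linarith)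
      _ = T := Real.rpow_one T
      _ ≤ 4 * T := by linarith
  have hDle : (D : ℝ) ≤ T ^ ε := Nat.floor_le (by linarith)
  have h1 := hhl T hT10 s hs1 hs2 hs3 hs4
  rw [hζ, zero_sub, norm_neg, ← hXd] at h1
  have h2 := det_first (D := D) hs1
  have h3 := det_prod D X s
  rw [det_split hD1 hDX] at h3
  set S := ∑ k ∈ Finset.Ioc D (X * D), (bb D X k : ℂ) * (k : ℂ) ^ (-s) with hS
  have h4 : ‖1 + S‖ ≤ 1 / 2 := by
    rw [← h3, norm_mul]
    calc _ ≤ (D : ℝ) * (C * T ^ (-(1 / 2) : ℝ)) :=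
          mul_le_mul h2 h1 (norm_nonneg _) (Nat.cast_nonneg _)
      _ ≤ T ^ ε * (C * T ^ (-(1 / 2) : ℝ)) := by gcongr
      _ = C * T ^ (-(1 / 2 - ε)) := by
          have : T ^ (-(1 / 2 - ε)) = T ^ ε * T ^ (-(1 / 2) : ℝ) := by
            rw [← Real.rpow_add hT0]
            congr 1
            ring
          rw [this]
          ring
      _ ≤ 1 / 2 := hsmall
  have h5 : (1 : ℝ) ≤ ‖1 + S‖ + ‖S‖ := by
    have h6 : (1 : ℂ) = (1 + S) - S := by ring
    calc (1 : ℝ) = ‖(1 : ℂ)‖ := norm_one.symm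
      _ = ‖(1 + S) - S‖ := by rw [← h6]
      _ ≤ _ := norm_sub_le _ _
  linarith

end Pool.Agent.N802.DH
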