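import Pool.Agent.N802.DH.Blk

/-!
# The exponents
-/

open Complex
open scoped BigOperators

set_option autoImplicit false

namespace Pool.Agent.N802.DH

/-- the bound -/
noncomputable def GG (N T σ : ℝ) : ℝ :=
  N * T ^ (2 - 2 * σ) + T * (N / T) ^ ((2 * σ - 1) / (3 - 2 * σ))

lemma choose_k {ε1 : ℝ} (h0 : 0 < ε1) (h1 : ε1 < 1 / 2) {T : ℝ} (hT : 10 ≤ T)
    (hT1 : 2 ≤ T ^ ε1) {N M D X0 : ℕ} (hN : 1 ≤ N) (hNT : (N : ℝ) ≤ T) (hD : D = ⌊T ^ ε1⌋₊)
    (hX0 : X0 = ⌊4 * T⌋₊) (hM1 : D ≤ M) (hM2 : M ≤ D * X0) {σ : ℝ} (hσ : 1 / 2 ≤ σ) (hσ1 : σ ≤ 1) :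
    ∃ k : ℕ, 1 ≤ k ∧ k ≤ ⌈1 / ε1⌉₊ + 1 ∧ ((N * (2 * M) ^ k : ℕ) : ℝ) ≤ 16 * T ^ 3 ∧
      (T + ((N * (2 * M) ^ k : ℕ) : ℝ)) * ((M : ℝ) ^ (1 - 2 * σ)) ^ k ≤
      2 ^ (⌈1 / ε1⌉₊ + 5) * T ^ ε1 * GG N T σ := by
  have hT0 : 0 < T := by linarith
  have hD1 : T ^ ε1 / 2 ≤ D := by
    have := Nat.lt_floor_add_one (T ^ ε1)
    rw [← hD] at this
    linarith
  have hD2 : (D : ℝ) ≤ T ^ ε1 := by
    rw [hD]
    exact Nat.floor_le (by positivity)
  have hD0 : (1 : ℝ) ≤ D := by linarith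
  have hX1 : (X0 : ℝ) ≤ 4 * T := by
    rw [hX0]
    exact Nat.floor_le (by positivity)
  have hMr : (D : ℝ) ≤ M := by exact_mod_cast hM1
  have hM0 : (1 : ℝ) ≤ M := hD0.trans hMr
  have hMp : (0 : ℝ) < M := by linarith
  have hN0 : (1 : ℝ) ≤ N := by exact_mod_cast hN
  have hNp : (0 : ℝ) < N := by linarith
  have hM2r : (M : ℝ) ≤ T ^ ε1 * (4 * T) := by
    have : (M : ℝ) ≤ D * X0 := by exact_mod_cast hM2
    refine this.trans (mul_le_mul hD2 hX1 (Nat.cast_nonneg _) (by positivity))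
  have hTe : T ^ ε1 ≤ T := by
    calc T ^ ε1 ≤ T ^ (1 : ℝ) := Real.rpow_le_rpow_of_exponent_le (by linarith) (by linarith)
      _ = T := Real.rpow_one T
  have hG1 : 0 ≤ (N : ℝ) * T ^ (2 - 2 * σ) := by positivity
  have hG2 : 0 ≤ T * (N / T) ^ ((2 * σ - 1) / (3 - 2 * σ)) := by positivity
  have hK : 1 ≤ ⌈1 / ε1⌉₊ := Nat.one_le_iff_ne_zero.2 (by
    have : 0 < ⌈1 / ε1⌉₊ := Nat.ceil_pos.2 (by positivity)
    omega)
  have hTe1 : 1 ≤ T ^ ε1 := by linarith
  have hp2 : ∀ j : ℕ, j ≤ ⌈1 / ε1⌉₊ + 5 → (2 : ℝ) ^ j ≤ 2 ^ (⌈1 / ε1⌉₊ + 5) :=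
    fun j hj => pow_le_pow_right₀ (by norm_num) hj
  by_cases hc : 2 * M ≤ ⌊T / N⌋₊
  · -- powers
    set b := 2 * M with hb
    have hb1 : 1 < b := by
      have : (1 : ℝ) < b := by rw [hb]; push_cast; linarith
      exact_mod_cast this
    have hfl : ⌊T / N⌋₊ ≠ 0 := by omega
    set k := Nat.log b ⌊T / N⌋₊ with hk
    have k1 : b ^ k ≤ ⌊T / N⌋₊ := Nat.pow_log_le_self b hfl
    have k2 : ⌊T / N⌋₊ < b ^ (k + 1) := Nat.lt_pow_succ_log_self hb1 _
    have k3 : 1 ≤ k := by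
      rw [hk]
      exact Nat.log_pos hb1 hc
    have k4 : ((b : ℝ)) ^ k ≤ T / N := by
      have : ((b ^ k : ℕ) : ℝ) ≤ ⌊T / N⌋₊ := by exact_mod_cast k1
      push_cast at this
      exact this.trans (Nat.floor_le (by positivity))
    have k5 : T / N < (b : ℝ) ^ (k + 1) := by
      have h3 := Nat.lt_floor_add_one (T / N)
      have h4 : ((⌊T / N⌋₊ : ℕ) : ℝ) + 1 ≤ ((b ^ (k + 1) : ℕ) : ℝ) := by exact_mod_cast k2
      push_cast at h4
      linarith
    have hbr : (b : ℝ) = 2 * M := by rw [hb]; push_cast; ring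
    have hb0 : (0 : ℝ) < b := by rw [hbr]; linarith
    have hb1r : (1 : ℝ) ≤ b := by rw [hbr]; linarith
    have kK : k ≤ ⌈1 / ε1⌉₊ := by
      have h3 : (T ^ ε1) ^ k ≤ T ^ (1 : ℝ) := by
        rw [Real.rpow_one]
        have h4 : T ^ ε1 ≤ b := by rw [hbr]; linarith
        have h5 : (T ^ ε1) ^ k ≤ (b : ℝ) ^ k := pow_le_pow_left₀ (by positivity) h4 k
        have h6 : T / N ≤ T := div_le_self hT0.le hN0
        linarith
      rw [← Real.rpow_natCast, ← Real.rpow_mul hT0.le] at h3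
      have h4 := (Real.rpow_le_rpow_left_iff (by linarith : (1 : ℝ) < T)).1 h3
      have h5 : (k : ℝ) ≤ 1 / ε1 := by
        rw [le_div_iff₀ h0]
        linarith
      have h6 : (k : ℝ) ≤ (⌈1 / ε1⌉₊ : ℕ) := h5.trans (Nat.le_ceil _)
      exact_mod_cast h6
    have hpow : ∀ j : ℕ, ((M : ℝ) ^ (1 - 2 * σ)) ^ j ≤ 2 ^ j * ((b : ℝ) ^ j) ^ (1 - 2 * σ) := by
      intro j
      have e1 : (M : ℝ) ^ (1 - 2 * σ) ≤ 2 * (b : ℝ) ^ (1 - 2 * σ) := by
        rw [hbr, Real.mul_rpow (by norm_num) hMp.le]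
        have e2 : (1 : ℝ) ≤ 2 * 2 ^ (1 - 2 * σ) := by
          have e3 : (2 : ℝ) * 2 ^ (1 - 2 * σ) = 2 ^ (2 - 2 * σ) := by
            rw [show (2 : ℝ) - 2 * σ = 1 + (1 - 2 * σ) by ring, Real.rpow_add (by norm_num),
              Real.rpow_one]
          rw [e3]
          exact Real.one_le_rpow (by norm_num) (by linarith)
        calc (M : ℝ) ^ (1 - 2 * σ) = 1 * (M : ℝ) ^ (1 - 2 * σ) := (one_mul _).symm
          _ ≤ (2 * 2 ^ (1 - 2 * σ)) * (M : ℝ) ^ (1 - 2 * σ) :=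
              mul_le_mul_of_nonneg_right e2 (by positivity)
          _ = _ := by ring
      have e4 := pow_le_pow_left₀ (by positivity) e1 j
      refine e4.trans (le_of_eq ?_)
      rw [mul_pow, ← Real.rpow_natCast, ← Real.rpow_natCast, ← Real.rpow_mul hb0.le,
        ← Real.rpow_natCast, ← Real.rpow_mul hb0.le]
      congr 2
      ring
    have h32 : 0 < 3 - 2 * σ := by linarith
    have hTN : 1 ≤ T / N := by
      rw [le_div_iff₀ hNp]
      linarith
    have hTN0 : 0 < T / N := by linarith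
    have einv : (N / T : ℝ) ^ ((2 * σ - 1) / (3 - 2 * σ)) =
        (T / N) ^ (-((2 * σ - 1) / (3 - 2 * σ))) := by
      rw [← inv_div, Real.inv_rpow (by positivity), ← Real.rpow_neg (by positivity)]
    by_cases hcase : (T / N) ^ (1 / (3 - 2 * σ)) ≤ (b : ℝ) ^ k
    · refine ⟨k, k3, by omega, ?_, ?_⟩
      · push_cast
        have h3 : (N : ℝ) * (b : ℝ) ^ k ≤ T := by
          have := mul_le_mul_of_nonneg_left k4 hNp.le
          rwa [mul_div_cancel₀ _ hNp.ne'] at this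
        nlinarith [pow_le_pow_left₀ (by norm_num : (0 : ℝ) ≤ 1) (by linarith : (1 : ℝ) ≤ T) 2]
      · push_cast
        have h3 : (N : ℝ) * (b : ℝ) ^ k ≤ T := by
          have := mul_le_mul_of_nonneg_left k4 hNp.le
          rwa [mul_div_cancel₀ _ hNp.ne'] at this
        have h5 := hpow k
        set a : ℝ := (b : ℝ) ^ k with ha
        have ha0 : 0 < a := by positivity
        have h6 : a ^ (1 - 2 * σ) ≤ (N / T) ^ ((2 * σ - 1) / (3 - 2 * σ)) := by
          rw [einv]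
          have e1 : (T / N) ^ (-((2 * σ - 1) / (3 - 2 * σ))) =
              ((T / N) ^ (1 / (3 - 2 * σ))) ^ (1 - 2 * σ) := by
            rw [← Real.rpow_mul hTN0.le]
            congr 1
            ring
          rw [e1]
          exact Real.rpow_le_rpow_of_nonpos (by positivity) hcase (by linarith)
        have h7 : (2 : ℝ) ^ k * 2 ≤ 2 ^ (⌈1 / ε1⌉₊ + 5) := by
          rw [← pow_succ]
          exact hp2 _ (by omega)
        calc (T + N * a) * ((M : ℝ) ^ (1 - 2 * σ)) ^ k ≤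
            (T + T) * (2 ^ k * (N / T) ^ ((2 * σ - 1) / (3 - 2 * σ))) := by
              apply mul_le_mul (by linarith) (h5.trans _) (by positivity) (by positivity)
              exact mul_le_mul_of_nonneg_left h6 (by positivity)
          _ = (2 ^ k * 2) * 1 * (T * (N / T) ^ ((2 * σ - 1) / (3 - 2 * σ))) := by ring
          _ ≤ 2 ^ (⌈1 / ε1⌉₊ + 5) * T ^ ε1 * (T * (N / T) ^ ((2 * σ - 1) / (3 - 2 * σ))) := by
              gcongr
          _ ≤ 2 ^ (⌈1 / ε1⌉₊ + 5) * T ^ ε1 * GG N T σ := by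
              apply mul_le_mul_of_nonneg_left _ (by positivity)
              unfold GG
              linarith
    · push Not at hcase
      have h5 := hpow (k + 1)
      set a : ℝ := (b : ℝ) ^ (k + 1) with ha
      have ha0 : 0 < a := by positivity
      have h4 : a ≤ (T / N) ^ (2 * (1 / (3 - 2 * σ))) := by
        have e1 : a ≤ ((b : ℝ) ^ k) ^ 2 := by
          rw [ha, ← pow_mul]
          exact pow_le_pow_right₀ hb1r (by omega)
        refine e1.trans ?_
        have e2 := pow_le_pow_left₀ (by positivity) hcase.le 2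
        refine e2.trans (le_of_eq ?_)
        rw [← Real.rpow_natCast, ← Real.rpow_mul hTN0.le]
        congr 1
        push_cast
        ring
      have h3 : T < N * a := by
        have := mul_lt_mul_of_pos_left k5 hNp
        rwa [mul_div_cancel₀ _ hNp.ne'] at this
      refine ⟨k + 1, by omega, by omega, ?_, ?_⟩
      · push_cast
        rw [← ha]
        have e1 : (T / N) ^ (2 * (1 / (3 - 2 * σ))) ≤ (T / N) ^ (2 : ℝ) := by
          apply Real.rpow_le_rpow_of_exponent_le hTN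
          have : 1 / (3 - 2 * σ) ≤ 1 := by
            rw [div_le_one h32]
            linarith
          linarith
        have e2 : (T / N) ^ (2 : ℝ) ≤ T ^ 2 := by
          rw [Real.rpow_two]
          exact pow_le_pow_left₀ hTN0.le (div_le_self hT0.le hN0) 2
        calc (N : ℝ) * a ≤ T * T ^ 2 :=
              mul_le_mul hNT (h4.trans (e1.trans e2)) ha0.le hT0.le
          _ = T ^ 3 := by ring
          _ ≤ 16 * T ^ 3 := by
              have : 0 ≤ T ^ 3 := by positivity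
              linarith
      · push_cast
        rw [← ha]
        have h7 : (2 : ℝ) ^ (k + 1) * 2 ≤ 2 ^ (⌈1 / ε1⌉₊ + 5) := by
          rw [← pow_succ]
          exact hp2 _ (by omega)
        have h8 : N * (a * a ^ (1 - 2 * σ)) ≤ T * (N / T) ^ ((2 * σ - 1) / (3 - 2 * σ)) := by
          have e1 : a * a ^ (1 - 2 * σ) = a ^ (2 - 2 * σ) := by
            rw [show (2 : ℝ) - 2 * σ = 1 + (1 - 2 * σ) by ring, Real.rpow_add ha0, Real.rpow_one]
          have e2 : a ^ (2 - 2 * σ) ≤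
              ((T / N) ^ (2 * (1 / (3 - 2 * σ)))) ^ (2 - 2 * σ) :=
            Real.rpow_le_rpow ha0.le h4 (by linarith)
          have e3 : ((T / N) ^ (2 * (1 / (3 - 2 * σ)))) ^ (2 - 2 * σ) =
              T / N * (T / N) ^ (-((2 * σ - 1) / (3 - 2 * σ))) := by
            nth_rewrite 2 [← Real.rpow_one (T / N)]
            rw [← Real.rpow_mul hTN0.le, ← Real.rpow_add hTN0]
            congr 1
            field_simp
            ring
          rw [e1, einv]
          calc (N : ℝ) * a ^ (2 - 2 * σ) ≤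
              N * (T / N * (T / N) ^ (-((2 * σ - 1) / (3 - 2 * σ)))) := by
                rw [← e3]
                exact mul_le_mul_of_nonneg_left e2 hNp.le
            _ = T * (T / N) ^ (-((2 * σ - 1) / (3 - 2 * σ))) := by
                rw [← mul_assoc, mul_div_cancel₀ _ hNp.ne']
        calc (T + N * a) * ((M : ℝ) ^ (1 - 2 * σ)) ^ (k + 1) ≤
            (N * a + N * a) * (2 ^ (k + 1) * a ^ (1 - 2 * σ)) := by
              apply mul_le_mul (by linarith) h5 (by positivity) (by positivity)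
          _ = (2 ^ (k + 1) * 2) * 1 * (N * (a * a ^ (1 - 2 * σ))) := by ring
          _ ≤ 2 ^ (⌈1 / ε1⌉₊ + 5) * T ^ ε1 * (T * (N / T) ^ ((2 * σ - 1) / (3 - 2 * σ))) := by
              gcongr
          _ ≤ 2 ^ (⌈1 / ε1⌉₊ + 5) * T ^ ε1 * GG N T σ := by
              apply mul_le_mul_of_nonneg_left _ (by positivity)
              unfold GG
              linarith
  · -- one factor
    have hc' : T < N * (2 * M) := by
      have h3 := Nat.lt_floor_add_one (T / N)
      have h4 : ((⌊T / N⌋₊ : ℕ) : ℝ) + 1 ≤ 2 * M := by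
        have : ⌊T / N⌋₊ + 1 ≤ 2 * M := by omega
        exact_mod_cast this
      have h5 : T / N < 2 * M := by linarith
      rw [div_lt_iff₀ hNp] at h5
      linarith
    refine ⟨1, le_rfl, by omega, ?_, ?_⟩
    · push_cast
      rw [pow_one]
      have h3 : (M : ℝ) ≤ T * (4 * T) :=
        hM2r.trans (mul_le_mul_of_nonneg_right hTe (by positivity))
      calc (N : ℝ) * (2 * M) ≤ T * (2 * (T * (4 * T))) := by gcongr
        _ = 8 * T ^ 3 := by ring
        _ ≤ 16 * T ^ 3 := by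
          have : 0 ≤ T ^ 3 := by positivity
          linarith
    · push_cast
      rw [pow_one, pow_one]
      have h3 : (M : ℝ) * (M : ℝ) ^ (1 - 2 * σ) = (M : ℝ) ^ (2 - 2 * σ) := by
        rw [show (2 : ℝ) - 2 * σ = 1 + (1 - 2 * σ) by ring, Real.rpow_add hMp, Real.rpow_one]
      have h4 : (M : ℝ) ^ (2 - 2 * σ) ≤ 4 * T ^ ε1 * T ^ (2 - 2 * σ) := by
        have e1 : (M : ℝ) ^ (2 - 2 * σ) ≤ (T ^ ε1 * (4 * T)) ^ (2 - 2 * σ) :=
          Real.rpow_le_rpow hMp.le hM2r (by linarith)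
        refine e1.trans ?_
        rw [Real.mul_rpow (by positivity) (by positivity), Real.mul_rpow (by norm_num) hT0.le]
        have e2 : (T ^ ε1) ^ (2 - 2 * σ) ≤ T ^ ε1 := by
          calc (T ^ ε1) ^ (2 - 2 * σ) ≤ (T ^ ε1) ^ (1 : ℝ) :=
                Real.rpow_le_rpow_of_exponent_le hTe1 (by linarith)
            _ = T ^ ε1 := Real.rpow_one _
        have e3 : (4 : ℝ) ^ (2 - 2 * σ) ≤ 4 := by
          calc (4 : ℝ) ^ (2 - 2 * σ) ≤ (4 : ℝ) ^ (1 : ℝ) :=
                Real.rpow_le_rpow_of_exponent_le (by norm_num) (by linarith)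
            _ = 4 := Real.rpow_one _
        calc (T ^ ε1) ^ (2 - 2 * σ) * (4 ^ (2 - 2 * σ) * T ^ (2 - 2 * σ)) ≤
            T ^ ε1 * (4 * T ^ (2 - 2 * σ)) := by gcongr
          _ = _ := by ring
      calc (T + N * (2 * M)) * (M : ℝ) ^ (1 - 2 * σ) ≤
          (N * (2 * M) + N * (2 * M)) * (M : ℝ) ^ (1 - 2 * σ) := by
            apply mul_le_mul_of_nonneg_right _ (by positivity)
            linarith
        _ = 4 * N * (M * (M : ℝ) ^ (1 - 2 * σ)) := by ring
        _ ≤ 4 * N * (4 * T ^ ε1 * T ^ (2 - 2 * σ)) := by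
            rw [h3]
            exact mul_le_mul_of_nonneg_left h4 (by positivity)
        _ = 2 ^ 4 * T ^ ε1 * (N * T ^ (2 - 2 * σ)) := by ring
        _ ≤ 2 ^ (⌈1 / ε1⌉₊ + 5) * T ^ ε1 * (N * T ^ (2 - 2 * σ)) := by
            have := hp2 4 (by omega)
            gcongr
        _ ≤ 2 ^ (⌈1 / ε1⌉₊ + 5) * T ^ ε1 * GG N T σ := by
            apply mul_le_mul_of_nonneg_left _ (by positivity)
            unfold GG
            linarith

end Pool.Agent.N802.DH
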