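import Pool.Agent.N802.DH.Stm
import Pool.Agent.H24R2.JP.Zeta
import Pool.Agent.TH321.GF.AQ

/-!
# DH/1a: the Hardy-Littlewood approximation of zeta in the right half of the strip

Author: helper488 (project DH of helper802).
-/

open Complex
open scoped BigOperators

set_option autoImplicit false
set_option maxHeartbeats 1000000

namespace Pool.Agent.N802.DH

namespace HL

/-- zeta minus the Dirichlet polynomial -/
noncomputable def D (X : ℕ) (s : ℂ) : ℂ := riemannZeta s - ∑ n ∈ Finset.Icc 1 X, (n : ℂ) ^ (-s)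

theorem D_le (s : ℂ) (M : ℕ) (h1 : 1 / 2 ≤ s.re) (h2 : 1 ≤ s.im) (hM : 1 ≤ M) :
    ‖D M s‖ ≤ (M : ℝ) ^ (1 - s.re) + ‖s‖ * ((M : ℝ) ^ (-s.re) / s.re) := by
  have hs : 0 < s.re := by linarith
  have hs1 : s ≠ 1 := by
    intro h
    rw [h] at h2
    simp at h2
    linarith
  have hM0 : (0 : ℝ) < M := by exact_mod_cast hM
  unfold D
  rw [Pool.Agent.H307R2.zeta_eq hM hs hs1]
  have e : ∑ n ∈ Finset.Icc 1 M, (n : ℂ) ^ (-s) + (M : ℂ) ^ (1 - s) / (s - 1) +
      s * Pool.Agent.H307R2.TM M Pool.Agent.H307R2.Ez s - ∑ m ∈ Finset.Icc 1 M, (m : ℂ) ^ (-s) =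
      (M : ℂ) ^ (1 - s) / (s - 1) + s * Pool.Agent.H307R2.TM M Pool.Agent.H307R2.Ez s := by
    ring
  rw [e]
  have n1 : ‖(M : ℂ) ^ (1 - s)‖ = (M : ℝ) ^ (1 - s.re) := by
    have := Complex.norm_cpow_eq_rpow_re_of_pos hM0 (1 - s)
    rw [Complex.ofReal_natCast] at this
    rw [this]
    simp
  have n2 : 1 ≤ ‖s - 1‖ := by
    have := Complex.abs_im_le_norm (s - 1)
    have h3 : (s - 1).im = s.im := by simp
    rw [h3] at this
    exact h2.trans ((le_abs_self _).trans this)
  have n4 := Pool.Agent.H307R2.TM_norm_le hM Pool.Agent.H307R2.Ez_norm_le hs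
  have p0 : 0 < (M : ℝ) ^ (1 - s.re) := Real.rpow_pos_of_pos hM0 _
  have n7 : ‖(M : ℂ) ^ (1 - s) / (s - 1)‖ ≤ (M : ℝ) ^ (1 - s.re) := by
    rw [norm_div, n1]
    exact div_le_self p0.le n2
  calc ‖(M : ℂ) ^ (1 - s) / (s - 1) + s * Pool.Agent.H307R2.TM M Pool.Agent.H307R2.Ez s‖
      ≤ ‖(M : ℂ) ^ (1 - s) / (s - 1)‖ +
        ‖s‖ * ‖Pool.Agent.H307R2.TM M Pool.Agent.H307R2.Ez s‖ := by
        refine (norm_add_le _ _).trans ?_
        rw [norm_mul]
    _ ≤ (M : ℝ) ^ (1 - s.re) + ‖s‖ * ((M : ℝ) ^ (-s.re) / s.re) := by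
        refine add_le_add n7 (mul_le_mul_of_nonneg_left ?_ (norm_nonneg _))
        refine n4.trans ?_
        rw [one_mul]

theorem D_diff (X : ℕ) (hX : 1 ≤ X) {s : ℂ} (hs : 0 < s.im) : DifferentiableAt ℂ (D X) s := by
  unfold D
  have hs1 : s ≠ 1 := by
    intro h
    rw [h] at hs
    simp at hs
  refine (differentiableAt_riemannZeta hs1).sub (DifferentiableAt.fun_sum fun n hn => ?_)
  have hn0 : (n : ℂ) ≠ 0 := by
    have := (Finset.mem_Icc.1 hn).1
    exact_mod_cast (by omega : n ≠ 0)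
  exact (differentiableAt_id.neg).const_cpow (Or.inl hn0)

theorem norm_exp_sq (s s0 : ℂ) : ‖Complex.exp ((s - s0) ^ 2)‖ =
    Real.exp ((s.re - s0.re) ^ 2 - (s.im - s0.im) ^ 2) := by
  rw [Complex.norm_exp]
  congr 1
  rw [sq]
  simp [Complex.mul_re]
  ring

/-- The extension from the critical line. -/
theorem main (hline : ∀ (u : ℝ) (X : ℕ), 1 ≤ X → 0 < u → u ≤ X →
    ‖D X (1 / 2 + I * u)‖ ≤ 3 * Real.sqrt X / (1 + u) + 3 / (2 * Real.sqrt X)) :
    S_hl := by
  refine ⟨13 * Real.exp (9 / 4), by positivity, ?_⟩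
  intro T hT s0 hr1 hr2 hi1 hi2
  set X : ℕ := ⌊4 * T⌋₊ with hX
  have hX1 : (X : ℝ) ≤ 4 * T := Nat.floor_le (by linarith)
  have hX2 : 4 * T < X + 1 := Nat.lt_floor_add_one _
  have hX3 : 3 * T ≤ X := by linarith
  have hXp : (0 : ℝ) < X := by linarith
  have hXn : 1 ≤ X := by
    have : (1 : ℝ) ≤ X := by linarith
    exact_mod_cast this
  have hT0 : 0 < T := by linarith
  set q := Real.sqrt T with hq
  have hq0 : 0 < q := Real.sqrt_pos.2 hT0
  have hq2 : q ^ 2 = T := Real.sq_sqrt hT0.le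
  have hR : T ^ (-(1 / 2) : ℝ) = 1 / q := by
    rw [Real.rpow_neg hT0.le, ← Real.sqrt_eq_rpow, one_div]
  set x := Real.sqrt X with hx
  have hx0 : 0 < x := Real.sqrt_pos.2 hXp
  have hx2 : x ^ 2 = X := Real.sq_sqrt hXp.le
  have hxq : x ≤ 2 * q := by
    apply abs_le_of_sq_le_sq' _ (by positivity) |>.2
    rw [mul_pow, hx2, hq2]
    linarith
  have hqx : 3 / 2 * q ≤ x := by
    apply abs_le_of_sq_le_sq' _ (by positivity) |>.2
    rw [mul_pow, hx2, hq2]
    linarith
  rw [hR]
  -- the rectangle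
  have hTT : T / 2 < 3 * T := by linarith
  set U : Set ℂ := Set.Ioo (1 / 2) 2 ×ℂ Set.Ioo (T / 2) (3 * T) with hU
  have hcl : closure U = Set.Icc (1 / 2) 2 ×ℂ Set.Icc (T / 2) (3 * T) := by
    rw [hU, Complex.closure_reProdIm, closure_Ioo (by norm_num), closure_Ioo hTT.ne]
  have hfr : frontier U = Set.Icc (1 / 2) 2 ×ℂ {T / 2, 3 * T} ∪
      {1 / 2, 2} ×ℂ Set.Icc (T / 2) (3 * T) := by
    rw [hU, Complex.frontier_reProdIm, closure_Ioo (by norm_num), closure_Ioo hTT.ne,
      frontier_Ioo hTT, frontier_Ioo (by norm_num)]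
  have hbd : Bornology.IsBounded U :=
    (Metric.isBounded_Ioo _ _).reProdIm (Metric.isBounded_Ioo _ _)
  let F : ℂ → ℂ := fun s => D X s * Complex.exp ((s - s0) ^ 2)
  have hF : DiffContOnCl ℂ F U := by
    apply DifferentiableOn.diffContOnCl
    intro s hs
    rw [hcl] at hs
    have him : 0 < s.im := by
      have := hs.2.1
      linarith
    exact ((D_diff X hXn him).mul (by fun_prop)).differentiableWithinAt
  have hexp : ∀ s : ℂ, 1 / 2 ≤ s.re → s.re ≤ 2 →
      ‖Complex.exp ((s - s0) ^ 2)‖ ≤ Real.exp (9 / 4) * Real.exp (-(s.im - s0.im) ^ 2) := by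
    intro s h1 h2
    rw [norm_exp_sq, ← Real.exp_add]
    apply Real.exp_le_exp.2
    have : (s.re - s0.re) ^ 2 ≤ 9 / 4 := by
      have h3 : -(3 / 2) ≤ s.re - s0.re := by linarith
      have h4 : s.re - s0.re ≤ 3 / 2 := by linarith
      nlinarith
    linarith
  have key : ∀ s ∈ frontier U, ‖F s‖ ≤ 13 * Real.exp (9 / 4) * (1 / q) := by
    intro s hs
    rw [hfr] at hs
    have hre : 1 / 2 ≤ s.re ∧ s.re ≤ 2 := by
      rcases hs with hs | hs
      · exact ⟨hs.1.1, hs.1.2⟩
      · rcases hs.1 with h | h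
        · rw [h]; norm_num
        · have h' : s.re = 2 := h
          rw [h']; norm_num
    have him : T / 2 ≤ s.im ∧ s.im ≤ 3 * T := by
      rcases hs with hs | hs
      · rcases hs.2 with h | h
        · rw [h]; constructor <;> linarith
        · have h' : s.im = 3 * T := h
          rw [h']; constructor <;> linarith
      · exact ⟨hs.2.1, hs.2.2⟩
    have hE := hexp s hre.1 hre.2
    have hE1 : ‖Complex.exp ((s - s0) ^ 2)‖ ≤ Real.exp (9 / 4) := by
      refine hE.trans ?_
      have : Real.exp (-(s.im - s0.im) ^ 2) ≤ 1 := by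
        rw [Real.exp_le_one_iff]
        nlinarith [sq_nonneg (s.im - s0.im)]
      nlinarith [Real.exp_pos (9 / 4 : ℝ)]
    have hsn : ‖s‖ ≤ 2 + 3 * T := by
      refine (Complex.norm_le_abs_re_add_abs_im s).trans ?_
      rw [abs_of_nonneg (by linarith : 0 ≤ s.re), abs_of_nonneg (by linarith : 0 ≤ s.im)]
      linarith
    show ‖D X s * Complex.exp ((s - s0) ^ 2)‖ ≤ _
    rw [norm_mul]
    rcases hs with hs | hs
    · -- horizontal sides
      have hgap : T ^ 2 / 4 ≤ (s.im - s0.im) ^ 2 := by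
        rcases hs.2 with h | h
        · rw [h]
          nlinarith
        · have h' : s.im = 3 * T := h
          rw [h']
          nlinarith
      have hdl := D_le s X hre.1 (by linarith) hXn
      have h1 : (X : ℝ) ^ (1 - s.re) ≤ x := by
        rw [hx, Real.sqrt_eq_rpow]
        exact Real.rpow_le_rpow_of_exponent_le (by linarith) (by linarith)
      have h2 : (X : ℝ) ^ (-s.re) / s.re ≤ 2 / x := by
        have h3 : (X : ℝ) ^ (-s.re) ≤ 1 / x := by
          rw [hx, Real.sqrt_eq_rpow, one_div, ← Real.rpow_neg hXp.le]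
          exact Real.rpow_le_rpow_of_exponent_le (by linarith) (by linarith)
        rw [div_le_iff₀ (by linarith)]
        refine h3.trans ?_
        rw [div_mul_eq_mul_div]
        apply div_le_div_of_nonneg_right _ hx0.le
        linarith
      have h4 : ‖s‖ * ((X : ℝ) ^ (-s.re) / s.re) ≤ 8 * q := by
        have h5 : 0 ≤ (X : ℝ) ^ (-s.re) / s.re :=
          div_nonneg (Real.rpow_nonneg hXp.le _) (by linarith)
        calc ‖s‖ * ((X : ℝ) ^ (-s.re) / s.re) ≤ (2 + 3 * T) * (2 / x) :=
              mul_le_mul hsn h2 h5 (by linarith)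
          _ ≤ 8 * q := by
              rw [mul_div_assoc', div_le_iff₀ hx0]
              nlinarith
      have h6 : ‖D X s‖ ≤ 10 * q := by linarith
      have h7 : ‖Complex.exp ((s - s0) ^ 2)‖ ≤ Real.exp (9 / 4) * (4 / T ^ 2) := by
        refine hE.trans (mul_le_mul_of_nonneg_left ?_ (Real.exp_pos _).le)
        calc Real.exp (-(s.im - s0.im) ^ 2) ≤ Real.exp (-(T ^ 2 / 4)) := by
              apply Real.exp_le_exp.2
              linarith
          _ ≤ 4 / T ^ 2 := by
              rw [Real.exp_neg, ← one_div, div_le_div_iff₀ (Real.exp_pos _) (by positivity)]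
              have := Real.add_one_le_exp (T ^ 2 / 4)
              linarith
      calc ‖D X s‖ * ‖Complex.exp ((s - s0) ^ 2)‖
          ≤ (10 * q) * (Real.exp (9 / 4) * (4 / T ^ 2)) :=
            mul_le_mul h6 h7 (norm_nonneg _) (by positivity)
        _ ≤ 13 * Real.exp (9 / 4) * (1 / q) := by
            have e1 : (10 * q) * (Real.exp (9 / 4) * (4 / T ^ 2)) =
                Real.exp (9 / 4) * (40 * (q / T ^ 2)) := by ring
            have e2 : 13 * Real.exp (9 / 4) * (1 / q) = Real.exp (9 / 4) * (13 * (1 / q)) := by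
              ring
            rw [e1, e2]
            refine mul_le_mul_of_nonneg_left ?_ (Real.exp_pos _).le
            have e3 : q / T ^ 2 = (1 / q) * (1 / T) := by
              rw [← hq2]
              field_simp
            rw [e3]
            have h8 : 1 / T ≤ 1 / 10 := one_div_le_one_div_of_le (by norm_num) hT
            have h9 : 0 < 1 / q := by positivity
            nlinarith
    · rcases hs.1 with h | h
      · -- the critical line
        have h' : s.re = 1 / 2 := h
        have es : s = 1 / 2 + I * (s.im : ℂ) := by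
          apply Complex.ext <;> simp [h']
        have h1 := hline s.im X hXn (by linarith) (by linarith)
        rw [← es] at h1
        have h2 : 3 * x / (1 + s.im) ≤ 12 * (1 / q) := by
          rw [div_le_iff₀ (by linarith)]
          have h3 : 12 * (1 / q) * (T / 2) ≤ 12 * (1 / q) * (1 + s.im) := by
            apply mul_le_mul_of_nonneg_left (by linarith) (by positivity)
          have h4 : 12 * (1 / q) * (T / 2) = 6 * q := by
            rw [← hq2]
            field_simp
            ring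
          linarith
        have h3 : 3 / (2 * x) ≤ 1 / q := by
          rw [div_le_div_iff₀ (by positivity) hq0]
          linarith
        have h4 : ‖D X s‖ ≤ 13 * (1 / q) := by
          refine h1.trans ?_
          linarith
        calc ‖D X s‖ * ‖Complex.exp ((s - s0) ^ 2)‖ ≤ (13 * (1 / q)) * Real.exp (9 / 4) :=
              mul_le_mul h4 hE1 (norm_nonneg _) (by positivity)
          _ = 13 * Real.exp (9 / 4) * (1 / q) := by ring
      · -- the line `Re s = 2`
        have h' : s.re = 2 := h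
        have hdl := D_le s X hre.1 (by linarith) hXn
        rw [h'] at hdl
        have h1 : (X : ℝ) ^ ((1 : ℝ) - 2) = 1 / X := by
          rw [show ((1 : ℝ) - 2) = -1 by norm_num, Real.rpow_neg_one, one_div]
        have h2 : (X : ℝ) ^ (-(2 : ℝ)) = 1 / (X : ℝ) ^ 2 := by
          rw [Real.rpow_neg hXp.le, Real.rpow_two, one_div]
        rw [h1, h2] at hdl
        have h3 : ‖s‖ * (1 / (X : ℝ) ^ 2 / 2) ≤ 1 / X := by
          have h4 : ‖s‖ ≤ 2 * X := by linarith
          calc ‖s‖ * (1 / (X : ℝ) ^ 2 / 2) ≤ (2 * X) * (1 / (X : ℝ) ^ 2 / 2) :=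
                mul_le_mul_of_nonneg_right h4 (by positivity)
            _ = 1 / X := by field_simp
        have h5 : 1 / (X : ℝ) ≤ 1 / q := by
          apply one_div_le_one_div_of_le hq0
          have h6 : q ≤ T := by nlinarith
          linarith
        have h4 : ‖D X s‖ ≤ 13 * (1 / q) := by
          have : 0 < 1 / q := by positivity
          linarith
        calc ‖D X s‖ * ‖Complex.exp ((s - s0) ^ 2)‖ ≤ (13 * (1 / q)) * Real.exp (9 / 4) :=
              mul_le_mul h4 hE1 (norm_nonneg _) (by positivity)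
          _ = 13 * Real.exp (9 / 4) * (1 / q) := by ring
  have hs0 : s0 ∈ closure U := by
    rw [hcl]
    exact ⟨⟨hr1, by linarith⟩, ⟨by linarith, by linarith⟩⟩
  have hfin := Complex.norm_le_of_forall_mem_frontier_norm_le hbd hF key hs0
  have e0 : F s0 = D X s0 := by
    show D X s0 * Complex.exp ((s0 - s0) ^ 2) = D X s0
    simp
  rw [e0] at hfin
  exact hfin

end HL

/-- **DH1a.** -/
theorem hl : S_hl := by
  refine HL.main fun u X hX hu0 huX => ?_
  have h := Pool.Agent.TH321.GF.AQ_pw u X hX hu0 huX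
  exact h

end Pool.Agent.N802.DH
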