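import Mathlib

/-!
# The density hypothesis in long weights: statements
-/

open Complex
open scoped BigOperators

set_option autoImplicit false

namespace Pool.Agent.N802.DH

/-- the coefficients of `zeta` times the mollifier of length `D`, `zeta` cut at `X` -/
noncomputable def bb (D X k : ℕ) : ℝ :=
  ∑ d ∈ k.divisors.filter (fun d => d ≤ D ∧ k / d ≤ X), ((ArithmeticFunction.moebius d : ℤ) : ℝ)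

/-- **DH1a**: the Hardy-Littlewood approximation in the right half of the strip -/
def S_hl : Prop := ∃ C : ℝ, 0 < C ∧ ∀ T : ℝ, 10 ≤ T → ∀ s : ℂ, 1 / 2 ≤ s.re → s.re ≤ 1 →
  T ≤ s.im → s.im ≤ 2 * T →
  ‖riemannZeta s - ∑ n ∈ Finset.Icc 1 ⌊4 * T⌋₊, (n : ℂ) ^ (-s)‖ ≤ C * T ^ (-(1 / 2) : ℝ)

/-- **DH1b**: detection of the zeros -/
def S_det : Prop := ∀ ε : ℝ, 0 < ε → ε < 1 / 2 → ∃ T0 : ℝ, 10 ≤ T0 ∧ ∀ T : ℝ, T0 ≤ T →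
  ∀ s : ℂ, riemannZeta s = 0 → 1 / 2 ≤ s.re → s.re ≤ 1 → T ≤ s.im → s.im ≤ 2 * T →
  1 / 2 ≤ ‖∑ k ∈ Finset.Ioc ⌊T ^ ε⌋₊ (⌊4 * T⌋₊ * ⌊T ^ ε⌋₊),
    (bb ⌊T ^ ε⌋₊ ⌊4 * T⌋₊ k : ℂ) * (k : ℂ) ^ (-s)‖

/-- **DH2**: the discrete mean value theorem -/
def S_lsz : Prop := ∃ C : ℝ, 0 < C ∧ ∀ (Z : Finset ℂ) (m : ℂ → ℝ) (A T : ℝ), (∀ s ∈ Z, 0 ≤ m s) →
  1 ≤ A → 1 ≤ T → (∀ s ∈ Z, T ≤ s.im ∧ s.im ≤ 2 * T) →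
  (∀ y : ℝ, (∑ s ∈ Z, if |s.im - y| ≤ 1 / 2 then m s else 0) ≤ A) →
  ∀ (X : ℕ) (a : ℕ → ℂ), 1 ≤ X →
  ∑ s ∈ Z, m s * ‖∑ n ∈ Finset.Icc 1 X, a n * (n : ℂ) ^ (-(I * s.im))‖ ^ 2 ≤
    C * A * (T + X * (1 + Real.log X)) * (1 + Real.log X) * ∑ n ∈ Finset.Icc 1 X, ‖a n‖ ^ 2

end Pool.Agent.N802.DH
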