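import Pool.Agent.H370R2.MV
import Pool.Agent.N802.DH.Stm

/-!
# DH2: the discrete mean value theorem for Dirichlet polynomials of any length

The first four lemmas are copied from `Pool/Agent/N802/WD/Wdz.lean` (helper697).
-/

set_option linter.all false
set_option autoImplicit false

open Complex Filter Topology Set MeasureTheory
open scoped BigOperators

namespace Pool.Agent.N802.DH

lemma lsz_sob {f f' : ℝ → ℂ} (hf : ∀ t, HasDerivAt f (f' t) t) (hc : Continuous f') {L : ℝ} (x : ℝ)
    (hL : 0 < L) : ‖f x‖ ^ 2 ≤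
      ∫ t in (x - 1 / L)..(x + 1 / L), (2 * L * ‖f t‖ ^ 2 + ‖f' t‖ ^ 2 / L) := by
  have hfc : Continuous f := continuous_iff_continuousAt.2 fun t => (hf t).continuousAt
  set a : ℝ := 1 / L with ha
  have ha0 : 0 < a := by rw [ha]; positivity
  have hle : x - a ≤ x + a := by linarith
  let g : ℝ → ℝ := fun t => ‖f t‖ ^ 2
  let g' : ℝ → ℝ := fun t => 2 * inner ℝ (f t) (f' t)
  let h : ℝ → ℝ := fun t => L * ‖f t‖ ^ 2 + ‖f' t‖ ^ 2 / L
  have hg : ∀ t, HasDerivAt g (g' t) t := fun t => (hf t).norm_sq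
  have hgc : Continuous g := by fun_prop
  have hg'c : Continuous g' := by
    show Continuous fun t => 2 * inner ℝ (f t) (f' t)
    exact continuous_const.mul (hfc.inner hc)
  have hhc : Continuous h := by
    show Continuous fun t => L * ‖f t‖ ^ 2 + ‖f' t‖ ^ 2 / L
    fun_prop
  have hgh : ∀ t, |g' t| ≤ h t := by
    intro t
    have h1 : |inner ℝ (f t) (f' t)| ≤ ‖f t‖ * ‖f' t‖ := abs_real_inner_le_norm _ _
    have h2 : |g' t| ≤ 2 * (‖f t‖ * ‖f' t‖) := by
      show |2 * inner ℝ (f t) (f' t)| ≤ _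
      rw [abs_mul, abs_two]
      linarith
    refine h2.trans ?_
    show _ ≤ L * ‖f t‖ ^ 2 + ‖f' t‖ ^ 2 / L
    have h3 : 0 ≤ (L * ‖f t‖ - ‖f' t‖) ^ 2 / L := by positivity
    have h4 : (L * ‖f t‖ - ‖f' t‖) ^ 2 / L =
        L * ‖f t‖ ^ 2 + ‖f' t‖ ^ 2 / L - 2 * (‖f t‖ * ‖f' t‖) := by
      field_simp
      ring
    linarith
  have hh0 : ∀ t, 0 ≤ h t := fun t => (abs_nonneg _).trans (hgh t)
  set J : ℝ := ∫ t in (x - a)..(x + a), h t with hJ
  have h1 : ∀ t ∈ Icc (x - a) (x + a), g x ≤ g t + J := by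
    intro t ht
    have e1 : ∫ s in t..x, g' s = g x - g t :=
      intervalIntegral.integral_eq_sub_of_hasDerivAt (fun s _ => hg s)
        (hg'c.intervalIntegrable _ _)
    have e2 : |∫ s in t..x, g' s| ≤ J := by
      calc |∫ s in t..x, g' s| ≤ |∫ s in t..x, h s| := by
            rw [← Real.norm_eq_abs]
            exact intervalIntegral.norm_integral_le_abs_of_norm_le
              (Filter.Eventually.of_forall fun s => by rw [Real.norm_eq_abs]; exact hgh s)
              (hhc.intervalIntegrable _ _)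
        _ ≤ J := by
            rcases le_total t x with htx | htx
            · rw [abs_of_nonneg (intervalIntegral.integral_nonneg htx fun s _ => hh0 s)]
              exact intervalIntegral.integral_mono_interval ht.1 htx (by linarith)
                (Filter.Eventually.of_forall fun s => hh0 s) (hhc.intervalIntegrable _ _)
            · rw [intervalIntegral.integral_symm, abs_neg,
                abs_of_nonneg (intervalIntegral.integral_nonneg htx fun s _ => hh0 s)]
              exact intervalIntegral.integral_mono_interval (by linarith) htx ht.2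
                (Filter.Eventually.of_forall fun s => hh0 s) (hhc.intervalIntegrable _ _)
    rw [e1] at e2
    linarith [le_abs_self (g x - g t)]
  have h2 : ∫ t in (x - a)..(x + a), g x ≤ ∫ t in (x - a)..(x + a), (g t + J) :=
    intervalIntegral.integral_mono_on hle (continuous_const.intervalIntegrable _ _)
      ((hgc.add continuous_const).intervalIntegrable _ _) h1
  rw [intervalIntegral.integral_add (hgc.intervalIntegrable _ _)
    (continuous_const.intervalIntegrable _ _), intervalIntegral.integral_const,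
    intervalIntegral.integral_const, smul_eq_mul, smul_eq_mul] at h2
  have h3 : ∫ t in (x - a)..(x + a), (L / 2 * g t + h t) ≤
      ∫ t in (x - a)..(x + a), (2 * L * ‖f t‖ ^ 2 + ‖f' t‖ ^ 2 / L) := by
    refine intervalIntegral.integral_mono_on hle
      (((continuous_const.mul hgc).add hhc).intervalIntegrable _ _)
      (Continuous.intervalIntegrable (by fun_prop) _ _) ?_
    intro t _
    show L / 2 * ‖f t‖ ^ 2 + (L * ‖f t‖ ^ 2 + ‖f' t‖ ^ 2 / L) ≤ _
    have : 0 ≤ L * ‖f t‖ ^ 2 := by positivity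
    linarith
  refine le_trans ?_ h3
  have h7 : ∫ t in (x - a)..(x + a), (L / 2 * g t + h t) =
      L / 2 * (∫ t in (x - a)..(x + a), g t) + J := by
    rw [intervalIntegral.integral_add (f := fun t => L / 2 * g t)
      ((continuous_const.mul hgc).intervalIntegrable _ _)
      (hhc.intervalIntegrable _ _), intervalIntegral.integral_const_mul]
  rw [h7]
  show g x ≤ _
  have h4 : x + a - (x - a) = 2 * a := by ring
  rw [h4] at h2
  have h5 : L * a = 1 := by rw [ha]; field_simp
  have h6 : g x = L / 2 * (2 * a * g x) := by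
    rw [show L / 2 * (2 * a * g x) = (L * a) * g x by ring, h5, one_mul]
  rw [h6]
  calc L / 2 * (2 * a * g x) ≤ L / 2 * ((∫ t in (x - a)..(x + a), g t) + 2 * a * J) :=
        mul_le_mul_of_nonneg_left h2 (by positivity)
    _ = L / 2 * (∫ t in (x - a)..(x + a), g t) + (L * a) * J := by ring
    _ = _ := by rw [h5, one_mul]

lemma lsz_cell {g : ℝ → ℝ} (hg : Continuous g) (hg0 : ∀ t, 0 ≤ g t) {a b u v A : ℝ} (y : ℝ)
    (huv : u ≤ v)
    (h1 : a ≤ u) (h2 : v ≤ b) (h3 : ∀ t ∈ Icc u v, |y - t| ≤ A) :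
    ∫ t in u..v, g t ≤ ∫ t in a..b, g t * (if |y - (t + 0)| ≤ A then 1 else 0) := by
  have hab : a ≤ b := h1.trans (huv.trans h2)
  rw [intervalIntegral.integral_of_le huv, intervalIntegral.integral_of_le hab]
  have e1 : (fun t : ℝ => g t * (if |y - (t + 0)| ≤ A then (1 : ℝ) else 0)) =
      {t : ℝ | |y - (t + 0)| ≤ A}.indicator g := by
    funext t
    by_cases h : |y - (t + 0)| ≤ A
    · rw [Set.indicator_of_mem (by exact h), if_pos h, mul_one]
    · rw [Set.indicator_of_notMem (by exact h), if_neg h, mul_zero]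
  rw [e1]
  have hE : MeasurableSet {t : ℝ | |y - (t + 0)| ≤ A} :=
    (isClosed_le (by fun_prop) continuous_const).measurableSet
  rw [MeasureTheory.setIntegral_indicator hE]
  refine MeasureTheory.setIntegral_mono_set ?_ ?_ ?_
  · exact ((hg.integrableOn_Icc (a := a) (b := b)).mono_set
      (Set.inter_subset_left.trans Set.Ioc_subset_Icc_self))
  · exact Filter.Eventually.of_forall hg0
  · refine Filter.Eventually.of_forall ?_
    intro t ht
    refine ⟨⟨lt_of_le_of_lt h1 ht.1, ht.2.trans h2⟩, ?_⟩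
    show |y - (t + 0)| ≤ A
    rw [add_zero]
    exact h3 t ⟨ht.1.le, ht.2⟩

lemma lsz_cell_int {g : ℝ → ℝ} (hg : Continuous g) (a b y A : ℝ) :
    IntervalIntegrable (fun t => g t * (if |y - (t + 0)| ≤ A then (1 : ℝ) else 0)) volume a b := by
  have e1 : (fun t : ℝ => g t * (if |y - (t + 0)| ≤ A then (1 : ℝ) else 0)) =
      {t : ℝ | |y - (t + 0)| ≤ A}.indicator g := by
    funext t
    by_cases h : |y - (t + 0)| ≤ A
    · rw [Set.indicator_of_mem (by exact h), if_pos h, mul_one]
    · rw [Set.indicator_of_notMem (by exact h), if_neg h, mul_zero]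
  rw [e1]
  have hE : MeasurableSet {t : ℝ | |y - (t + 0)| ≤ A} :=
    (isClosed_le (by fun_prop) continuous_const).measurableSet
  rw [intervalIntegrable_iff]
  exact (intervalIntegrable_iff.1 (hg.intervalIntegrable a b)).indicator hE

/-- sum over points of the integrals around them -/
lemma lsz_swap {ι : Type*} (Z : Finset ι) (m y : ι → ℝ) {g : ℝ → ℝ} (hg : Continuous g)
    (a b A : ℝ) :
    ∑ s ∈ Z, m s * ∫ t in a..b, g t * (if |y s - (t + 0)| ≤ A then (1 : ℝ) else 0) =
    ∫ t in a..b, g t * ∑ s ∈ Z, if |y s - (t + 0)| ≤ A then m s else 0 := by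
  simp only [← intervalIntegral.integral_const_mul]
  rw [← intervalIntegral.integral_finsetSum]
  · congr 1
    funext t
    rw [Finset.mul_sum]
    refine Finset.sum_congr rfl fun s _ => ?_
    split_ifs <;> ring
  · intro s _
    exact (lsz_cell_int hg a b (y s) A).const_mul _


/-- Dirichlet polynomial of length `X` -/
noncomputable def lszP (X : ℕ) (b : ℕ → ℂ) (t : ℝ) : ℂ :=
  ∑ n ∈ Finset.Icc 1 X, b n * (n : ℂ) ^ (-(t : ℂ) * I)

lemma lszP_deriv (X : ℕ) (b : ℕ → ℂ) (t : ℝ) :
    HasDerivAt (lszP X b) (lszP X (fun n => b n * (-I * (Real.log n : ℂ))) t) t := by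
  unfold lszP
  refine HasDerivAt.fun_sum fun n hn => ?_
  have hn0 : (n : ℂ) ≠ 0 := by
    have : n ≠ 0 := by
      have := (Finset.mem_Icc.1 hn).1
      omega
    exact_mod_cast this
  have h1 : HasDerivAt (fun z : ℂ => -z * I) (-1 * I) (t : ℂ) :=
    ((hasDerivAt_id (t : ℂ)).neg).mul_const I
  have h2 := (h1.const_cpow (c := (n : ℂ)) (Or.inl hn0)).comp_ofReal
  have h3 := h2.const_mul (b n)
  refine h3.congr_deriv ?_
  rw [← Complex.natCast_log]
  ring

lemma lszP_cont (X : ℕ) (b : ℕ → ℂ) : Continuous (lszP X b) :=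
  continuous_iff_continuousAt.2 fun t => (lszP_deriv X b t).continuousAt

theorem lsz : S_lsz := by
  refine ⟨36, by norm_num, ?_⟩
  intro Z m A T hm hA hT hZ hcell X a hX
  have hX1 : (1 : ℝ) ≤ X := by exact_mod_cast hX
  set l : ℝ := 1 + Real.log X with hl
  have hl1 : 1 ≤ l := by
    rw [hl]
    linarith [Real.log_nonneg hX1]
  set L : ℝ := 2 * l with hL
  have hL2 : 2 ≤ L := by rw [hL]; linarith
  have hL0 : 0 < L := by linarith
  set a' : ℕ → ℂ := fun n => a n * (-I * (Real.log n : ℂ)) with ha'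
  set S : ℝ := ∑ n ∈ Finset.Icc 1 X, ‖a n‖ ^ 2 with hS
  have hS0 : 0 ≤ S := Finset.sum_nonneg fun _ _ => by positivity
  have hc := lszP_cont X a
  have hc' := lszP_cont X a'
  set g : ℝ → ℝ := fun t => 2 * L * ‖lszP X a t‖ ^ 2 + ‖lszP X a' t‖ ^ 2 / L with hg
  have hgc : Continuous g := by
    rw [hg]
    fun_prop
  have hg0 : ∀ t, 0 ≤ g t := by
    intro t
    rw [hg]
    positivity
  have hinv : 1 / L ≤ 1 / 2 := one_div_le_one_div_of_le (by norm_num) hL2
  have hinv0 : 0 < 1 / L := by positivity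
  have key : ∀ s ∈ Z, ‖∑ n ∈ Finset.Icc 1 X, a n * (n : ℂ) ^ (-(I * s.im))‖ ^ 2 ≤
      ∫ t in (T - 1 / 2)..(2 * T + 1 / 2), g t *
        (if |s.im - (t + 0)| ≤ 1 / 2 then (1 : ℝ) else 0) := by
    intro s hs
    obtain ⟨z1, z2⟩ := hZ s hs
    have e1 : ∑ n ∈ Finset.Icc 1 X, a n * (n : ℂ) ^ (-(I * s.im)) = lszP X a s.im := by
      unfold lszP
      refine Finset.sum_congr rfl fun n _ => ?_
      congr 2
      ring
    rw [e1]
    refine (lsz_sob (lszP_deriv X a) hc' s.im hL0).trans ?_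
    exact lsz_cell hgc hg0 s.im (by linarith) (by linarith) (by linarith) (by
      intro t ht
      rw [abs_le]
      constructor <;> linarith [ht.1, ht.2])
  have hTle : T - 1 / 2 ≤ 2 * T + 1 / 2 := by linarith
  have step1 : ∑ s ∈ Z, m s * ‖∑ n ∈ Finset.Icc 1 X, a n * (n : ℂ) ^ (-(I * s.im))‖ ^ 2 ≤
      A * ∫ t in (T - 1 / 2)..(2 * T + 1 / 2), g t := by
    refine (Finset.sum_le_sum fun s hs => mul_le_mul_of_nonneg_left (key s hs) (hm s hs)).trans ?_
    rw [lsz_swap Z m (fun s => s.im) hgc, ← intervalIntegral.integral_const_mul]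
    have i0 : IntervalIntegrable (fun t => g t *
        ∑ s ∈ Z, if |s.im - (t + 0)| ≤ 1 / 2 then m s else 0) volume
        (T - 1 / 2) (2 * T + 1 / 2) := by
      have h1 : IntervalIntegrable (∑ s ∈ Z, fun t => m s * (g t *
        (if |s.im - (t + 0)| ≤ 1 / 2 then (1 : ℝ) else 0))) volume (T - 1 / 2) (2 * T + 1 / 2) :=
        IntervalIntegrable.sum _ fun s _ => (lsz_cell_int hgc _ _ _ _).const_mul _
      refine h1.congr ?_
      intro t _
      simp only [Finset.sum_apply]
      rw [Finset.mul_sum]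
      refine Finset.sum_congr rfl fun s _ => ?_
      split_ifs <;> ring
    refine intervalIntegral.integral_mono_on hTle i0
      ((continuous_const.mul hgc).intervalIntegrable _ _) ?_
    intro t _
    have h1 := hcell t
    simp only [add_zero]
    calc g t * (∑ s ∈ Z, if |s.im - t| ≤ 1 / 2 then m s else 0) ≤ g t * A :=
          mul_le_mul_of_nonneg_left h1 (hg0 t)
      _ = A * g t := mul_comm _ _
  have hint : ∫ t in (T - 1 / 2)..(2 * T + 1 / 2), g t =
      2 * L * (∫ t in (T - 1 / 2)..(2 * T + 1 / 2), ‖lszP X a t‖ ^ 2) +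
      (∫ t in (T - 1 / 2)..(2 * T + 1 / 2), ‖lszP X a' t‖ ^ 2) / L := by
    rw [hg, intervalIntegral.integral_add (f := fun t => 2 * L * ‖lszP X a t‖ ^ 2)
      (g := fun t => ‖lszP X a' t‖ ^ 2 / L)
      (Continuous.intervalIntegrable (by fun_prop) _ _)
      (Continuous.intervalIntegrable (by fun_prop) _ _), intervalIntegral.integral_const_mul,
      intervalIntegral.integral_div]
  have mv1 := H370.mean_value a X (T - 1 / 2) (2 * T + 1 / 2) hTle
  have mv2 := H370.mean_value a' X (T - 1 / 2) (2 * T + 1 / 2) hTle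
  have hS' : ∑ n ∈ Finset.Icc 1 X, ‖a' n‖ ^ 2 ≤ l ^ 2 * S := by
    rw [hS, Finset.mul_sum]
    refine Finset.sum_le_sum fun n hn => ?_
    obtain ⟨n1, n2⟩ := Finset.mem_Icc.1 hn
    have n1' : (1 : ℝ) ≤ n := by exact_mod_cast n1
    have n2' : (n : ℝ) ≤ X := by exact_mod_cast n2
    have h1 : 0 ≤ Real.log n := Real.log_nonneg n1'
    have h2 : Real.log n ≤ l := by
      rw [hl]
      linarith [Real.log_le_log (by linarith) n2']
    have h3 : ‖a' n‖ = ‖a n‖ * Real.log n := by
      rw [ha']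
      simp only [norm_mul, norm_neg, Complex.norm_I, one_mul]
      rw [Complex.norm_real, Real.norm_eq_abs, abs_of_nonneg h1]
    rw [h3, mul_pow, mul_comm]
    exact mul_le_mul_of_nonneg_right (pow_le_pow_left₀ h1 h2 2) (by positivity)
  set B : ℝ := 2 * T + 1 / 2 - (T - 1 / 2) + 8 * X * (1 + Real.log X) with hB
  have hB0 : 0 ≤ B := by
    rw [hB]
    have : 0 ≤ 8 * (X : ℝ) * l := by positivity
    rw [← hl]
    linarith
  have hB1 : B ≤ 8 * (T + X * l) := by
    rw [hB, ← hl]
    nlinarith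
  have I1 : ∫ t in (T - 1 / 2)..(2 * T + 1 / 2), ‖lszP X a t‖ ^ 2 ≤ B * S := mv1
  have I2 : ∫ t in (T - 1 / 2)..(2 * T + 1 / 2), ‖lszP X a' t‖ ^ 2 ≤ B * (l ^ 2 * S) :=
    le_trans mv2 (mul_le_mul_of_nonneg_left hS' hB0)
  have I3 : ∫ t in (T - 1 / 2)..(2 * T + 1 / 2), g t ≤ 9 / 2 * l * (B * S) := by
    rw [hint]
    calc 2 * L * (∫ t in (T - 1 / 2)..(2 * T + 1 / 2), ‖lszP X a t‖ ^ 2) +
        (∫ t in (T - 1 / 2)..(2 * T + 1 / 2), ‖lszP X a' t‖ ^ 2) / L
        ≤ 2 * L * (B * S) + (B * (l ^ 2 * S)) / L := by gcongr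
      _ = 9 / 2 * l * (B * S) := by
          rw [hL]
          field_simp
          ring
  calc ∑ s ∈ Z, m s * ‖∑ n ∈ Finset.Icc 1 X, a n * (n : ℂ) ^ (-(I * s.im))‖ ^ 2
      ≤ A * ∫ t in (T - 1 / 2)..(2 * T + 1 / 2), g t := step1
    _ ≤ A * (9 / 2 * l * (8 * (T + X * l) * S)) := by
        have : 9 / 2 * l * (B * S) ≤ 9 / 2 * l * (8 * (T + X * l) * S) := by gcongr
        exact mul_le_mul_of_nonneg_left (I3.trans this) (by linarith)
    _ = 36 * A * (T + X * l) * l * S := by ring

end Pool.Agent.N802.DH
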