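import Pool.Agent.N802.DH.Asm
import Pool.Agent.N802.DH.Hl
import Pool.Agent.N802.DH.Det
import Pool.Agent.N802.DH.Lsz
import Pool.Agent.H370R2.PC2
import Pool.Agent.H370R2.DirGood

/-!
# The density theorem in long weights, for zeta
-/

open Complex Filter
open scoped BigOperators Topology

set_option autoImplicit false

namespace Pool.Agent.N802.DH

open H370

theorem dhw : S_dhw := asm (det hl) lsz

/-- the local density of the zeros -/
lemma pts_zeta : ∃ C : ℝ, 0 < C ∧ ∀ T : ℝ, 10 ≤ T → ∀ Z : Finset ℂ, Z ⊆ Zf riemannZeta T (2 * T) →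
    Pts Z (fun s => (mult riemannZeta s : ℝ)) (C * Real.log T) T := by
  classical
  obtain ⟨C, hC, h⟩ := local_sum (F := riemannZeta) good_zeta
  refine ⟨2 * C + 1, by positivity, fun T hT Z hZ => ?_⟩
  have hT0 : 0 < T := by linarith
  have hL1 : 1 ≤ Real.log T := by
    rw [Real.le_log_iff_exp_le hT0]
    have := Real.exp_one_lt_d9
    linarith
  have hL0 : 0 < Real.log T := by linarith
  refine ⟨fun s _ => Nat.cast_nonneg _, by nlinarith, by linarith, fun s hs => ?_, fun y => ?_⟩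
  · have := (mem_Zf good_zeta (by linarith : (1 : ℝ) ≤ T)).1 (hZ hs)
    exact ⟨this.2.2.1.le, this.2.2.2.1⟩
  · have h1 := h T (by linarith) T (2 * T) le_rfl le_rfl (y - 1 / 2)
      (fun k => if k = 0 ∨ k = 1 then 1 else 0) (fun k => by positivity)
      (fun s => if |s.im - y| ≤ 1 / 2 then 1 else 0) (fun s _ => by
        by_cases hc : |s.im - y| ≤ 1 / 2
        · rw [if_pos hc]
          have hc' := abs_le.1 hc
          have hf : ⌊s.im - (y - 1 / 2)⌋ = 0 ∨ ⌊s.im - (y - 1 / 2)⌋ = 1 := by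
            have k1 : 0 ≤ ⌊s.im - (y - 1 / 2)⌋ := Int.floor_nonneg.2 (by linarith)
            have k2 : ⌊s.im - (y - 1 / 2)⌋ < 2 := Int.floor_lt.2 (by push_cast; linarith)
            omega
          rw [if_pos hf]
        · rw [if_neg hc]
          positivity)
    have h2 : ∑ k ∈ (Zf riemannZeta T (2 * T)).image (fun s => ⌊s.im - (y - 1 / 2)⌋),
        (if k = 0 ∨ k = 1 then (1 : ℝ) else 0) ≤ 2 := by
      rw [← Finset.sum_filter, Finset.sum_const, nsmul_eq_mul, mul_one]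
      have h3 : (((Zf riemannZeta T (2 * T)).image (fun s => ⌊s.im - (y - 1 / 2)⌋)).filter
          (fun k => k = 0 ∨ k = 1)) ⊆ ({0, 1} : Finset ℤ) := by
        intro k hk
        rw [Finset.mem_filter] at hk
        rw [Finset.mem_insert, Finset.mem_singleton]
        exact hk.2
      have h4 := Finset.card_le_card h3
      have h5 : ({0, 1} : Finset ℤ).card = 2 := rfl
      rw [h5] at h4
      exact_mod_cast h4
    have h6 : (∑ s ∈ Z, if |s.im - y| ≤ 1 / 2 then (mult riemannZeta s : ℝ) else 0) ≤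
        ∑ s ∈ Zf riemannZeta T (2 * T), (mult riemannZeta s : ℝ) *
          (if |s.im - y| ≤ 1 / 2 then 1 else 0) := by
      refine (Finset.sum_le_sum_of_subset_of_nonneg hZ fun s _ _ => by positivity).trans
        (le_of_eq (Finset.sum_congr rfl fun s _ => ?_))
      split_ifs <;> simp
    refine h6.trans (h1.trans ?_)
    calc C * Real.log T * ∑ k ∈ (Zf riemannZeta T (2 * T)).image (fun s => ⌊s.im - (y - 1 / 2)⌋),
        (if k = 0 ∨ k = 1 then (1 : ℝ) else 0) ≤ C * Real.log T * 2 :=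
          mul_le_mul_of_nonneg_left h2 (by positivity)
      _ ≤ (2 * C + 1) * Real.log T := by linarith

open Classical in
/-- **the density theorem in long weights** -/
theorem dh_zeta : ∀ ε : ℝ, 0 < ε → ∃ C T0 : ℝ, 0 < C ∧ 10 ≤ T0 ∧ ∀ T : ℝ, T0 ≤ T →
    ∀ σ : ℝ, 1 / 2 ≤ σ → σ ≤ 1 → ∀ N : ℕ, 1 ≤ N → (N : ℝ) ≤ T → ∀ r : ℕ → ℂ, Sup N r →
    ∑ s ∈ (Zf riemannZeta T (2 * T)).filter (fun s => σ ≤ s.re), (mult riemannZeta s : ℝ) *
      ‖∑ n ∈ Finset.Icc 1 N, r n * (n : ℂ) ^ (-(I * s.im))‖ ^ 2 ≤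
    C * T ^ ε * GG N T σ * ∑ n ∈ Finset.Icc 1 N, ‖r n‖ ^ 2 := by
  intro ε hε
  obtain ⟨C, T0, hC, hT0, h⟩ := dhw (ε / 2) (by positivity)
  obtain ⟨C1, hC1, h1⟩ := pts_zeta
  have ev : ∀ᶠ T : ℝ in atTop, Real.log T ≤ T ^ (ε / 2) := by
    have := (isLittleO_log_rpow_atTop (show 0 < ε / 2 by positivity)).bound
      (show (0 : ℝ) < 1 by norm_num)
    filter_upwards [this, eventually_ge_atTop 1] with T hT hT1
    rwa [Real.norm_of_nonneg (Real.log_nonneg hT1), Real.norm_of_nonneg (by positivity),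
      one_mul] at hT
  obtain ⟨T1, hT1⟩ := eventually_atTop.1 ev
  refine ⟨C * C1, max T0 T1, by positivity, hT0.trans (le_max_left _ _), ?_⟩
  intro T hT σ hσ hσ1 N hN hNT r hr
  have hTa : T0 ≤ T := (le_max_left _ _).trans hT
  have hTb := hT1 T ((le_max_right _ _).trans hT)
  have hT10 : 10 ≤ T := hT0.trans hTa
  have hTp : 0 < T := by linarith
  have h2 := h T hTa _ _ _ σ (h1 T hT10 ((Zf riemannZeta T (2 * T)).filter (fun s => σ ≤ s.re))
    (Finset.filter_subset _ _)) hσ hσ1 (fun s hs => by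
      rw [Finset.mem_filter, mem_Zf good_zeta (by linarith : (1 : ℝ) ≤ T)] at hs
      exact ⟨hs.1.2.2.2.2, hs.2, hs.1.2.1.le⟩) N hN hNT r hr
  refine h2.trans ?_
  have hG0 : 0 ≤ GG N T σ := by
    unfold GG
    positivity
  have hS0 : 0 ≤ ∑ n ∈ Finset.Icc 1 N, ‖r n‖ ^ 2 := Finset.sum_nonneg fun n _ => by positivity
  have h3 : Real.log T * T ^ (ε / 2) ≤ T ^ ε := by
    calc Real.log T * T ^ (ε / 2) ≤ T ^ (ε / 2) * T ^ (ε / 2) :=
          mul_le_mul_of_nonneg_right hTb (by positivity)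
      _ = T ^ ε := by
          rw [← Real.rpow_add hTp]
          congr 1
          ring
  calc C * (C1 * Real.log T) * T ^ (ε / 2) * GG N T σ * ∑ n ∈ Finset.Icc 1 N, ‖r n‖ ^ 2 =
      C * C1 * (Real.log T * T ^ (ε / 2)) * GG N T σ * ∑ n ∈ Finset.Icc 1 N, ‖r n‖ ^ 2 := by ring
    _ ≤ C * C1 * T ^ ε * GG N T σ * ∑ n ∈ Finset.Icc 1 N, ‖r n‖ ^ 2 := by gcongr

end Pool.Agent.N802.DH
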